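import Pool.Agent.H73.Fro.Int2

set_option autoImplicit false

/-!
# A finite cover by normalised coordinate balls with a smooth partition of unity
-/

namespace Pool.Agent.H71.Fro

open Set Function Pool.Agent.H73.Fro Metric
open scoped Manifold ContDiff ComplexConjugate Topology

/-- a finite family of charts, centres, radii, and a partition of unity -/
structure Cov (n : ℕ) (X : Type*) [TopologicalSpace X] [ChartedSpace (Cn n) X] where
  m : ℕ
  e : Fin m → atlas (Cn n) X
  a : Fin m → Cn n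
  r : Fin m → ℝ
  chi : Fin m → SF n X
  r_pos : ∀ i, 0 < r i
  ball : ∀ i, closedBall (a i) (4 * r i) ⊆ (e i).1.target
  supp : ∀ i x, (chi i).fn x ≠ 0 → x ∈ (e i).1.source ∧ (e i).1 x ∈ closedBall (a i) (r i)
  nonneg : ∀ i x, 0 ≤ (chi i).fn x
  sum_one : ∀ x, ∑ i, (chi i).fn x = 1

theorem exists_cov (n : ℕ) (X : Type*) [TopologicalSpace X] [ChartedSpace (Cn n) X]
    [IsManifold 𝓘(ℂ, Cn n) ω X] [CompactSpace X] [T2Space X] : Nonempty (Cov n X) := by
  classical
  have : IsManifold 𝓘(ℝ, Cn n) ∞ X := isManifold_real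
  have h1 : ∀ x : X, ∃ r : ℝ, 0 < r ∧
      closedBall (chartAt (Cn n) x x) (4 * r) ⊆ (chartAt (Cn n) x).target := by
    intro x
    obtain ⟨ε, hε, hb⟩ := Metric.isOpen_iff.mp (chartAt (Cn n) x).open_target _
      (mem_chart_target (Cn n) x)
    refine ⟨ε / 5, by positivity, fun y hy => hb ?_⟩
    rw [mem_closedBall] at hy
    rw [Metric.mem_ball]
    linarith
  choose r hr hb using h1
  let U : X → Set X := fun x => (chartAt (Cn n) x).source ∩
    (chartAt (Cn n) x) ⁻¹' (Metric.ball (chartAt (Cn n) x x) (r x))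
  have hU : ∀ x, IsOpen (U x) := fun x =>
    (chartAt (Cn n) x).isOpen_inter_preimage Metric.isOpen_ball
  have hxU : ∀ x, x ∈ U x := fun x => ⟨mem_chart_source _ x, Metric.mem_ball_self (hr x)⟩
  obtain ⟨t, ht⟩ := isCompact_univ.elim_finite_subcover U hU
    (fun x _ => mem_iUnion.2 ⟨x, hxU x⟩)
  obtain ⟨f, hf⟩ := SmoothPartitionOfUnity.exists_isSubordinate (ι := t) 𝓘(ℝ, Cn n)
    (isClosed_univ : IsClosed (univ : Set X)) (fun i => U i.1)
    (fun i => hU i.1) (by
      intro x hx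
      have := ht hx
      simp only [mem_iUnion] at this ⊢
      obtain ⟨i, hi, hx2⟩ := this
      exact ⟨⟨i, hi⟩, hx2⟩)
  have hsm : ∀ (i : t) (e : atlas (Cn n) X),
      ContDiffOn ℝ ∞ (fun y => f i (e.1.symm y)) e.1.target := by
    intro i e
    have h1 : ContMDiffOn 𝓘(ℝ, Cn n) 𝓘(ℝ, Cn n) ∞ e.1.symm e.1.target :=
      contMDiffOn_symm_of_mem_maximalAtlas (IsManifold.subset_maximalAtlas e.2)
    have h2 := (f i).contMDiff.comp_contMDiffOn h1
    rw [contMDiffOn_iff_contDiffOn] at h2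
    exact h2
  let q := t.equivFin
  refine ⟨⟨t.card, fun i => ⟨chartAt (Cn n) (q.symm i).1, chart_mem_atlas _ _⟩,
    fun i => chartAt (Cn n) (q.symm i).1 (q.symm i).1, fun i => r (q.symm i).1,
    fun i => ⟨f (q.symm i), hsm (q.symm i)⟩, fun i => hr _, fun i => hb _, fun i x hx => ?_,
    fun i x => f.nonneg _ x, fun x => ?_⟩⟩
  · have h2 : x ∈ U (q.symm i).1 := hf (q.symm i) (subset_tsupport _ hx)
    exact ⟨h2.1, Metric.ball_subset_closedBall h2.2⟩
  · have h2 := f.sum_eq_one (mem_univ x)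
    rw [finsum_eq_sum_of_fintype] at h2
    rw [← h2]
    exact Equiv.sum_comp q.symm (fun i => f i x)

end Pool.Agent.H71.Fro
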