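import Pool.Agent.H71.Fro.Loc
import Pool.Agent.H71.Top.Abstract

set_option autoImplicit false

/-!
# Linear functionals on `(0,n)`-forms vanishing on `dbar`-exact forms
-/

namespace Pool.Agent.H71.Fro

open Set Function Pool.Agent.H73.Fro MeasureTheory Pool.Agent.H71.Top Metric
open scoped Manifold ContDiff ComplexConjugate Topology

variable {n : ℕ} {X : Type*} [TopologicalSpace X] [ChartedSpace (Cn n) X]

/-! ### Normalised charts -/

/-- the affine map of the `i`-th normalised chart -/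
noncomputable def af (K : Cov n X) (i : Fin K.m) (y : Cn n) : Cn n := K.a i + K.r i • y

/-- its inverse -/
noncomputable def ag (K : Cov n X) (i : Fin K.m) (z : Cn n) : Cn n := (K.r i)⁻¹ • (z - K.a i)

theorem ag_af (K : Cov n X) (i : Fin K.m) (y : Cn n) : ag K i (af K i y) = y := by
  unfold ag af
  rw [add_sub_cancel_left, smul_smul, inv_mul_cancel₀ (K.r_pos i).ne', one_smul]

theorem af_ag (K : Cov n X) (i : Fin K.m) (z : Cn n) : af K i (ag K i z) = z := by
  unfold ag af
  rw [smul_smul, mul_inv_cancel₀ (K.r_pos i).ne', one_smul, add_sub_cancel]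

theorem af_contDiff (K : Cov n X) (i : Fin K.m) : ContDiff ℝ ∞ (af K i) := by
  unfold af
  exact contDiff_const.add (contDiff_id.const_smul (K.r i))

theorem ag_contDiff (K : Cov n X) (i : Fin K.m) : ContDiff ℝ ∞ (ag K i) := by
  unfold ag
  exact (contDiff_id.sub contDiff_const).const_smul (K.r i)⁻¹

theorem norm_af (K : Cov n X) (i : Fin K.m) (y : Cn n) : dist (af K i y) (K.a i) = K.r i * ‖y‖ := by
  unfold af
  rw [dist_eq_norm, add_sub_cancel_left, norm_smul, Real.norm_of_nonneg (K.r_pos i).le]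

theorem norm_ag (K : Cov n X) (i : Fin K.m) (z : Cn n) :
    dist z (K.a i) = K.r i * ‖ag K i z‖ := by
  rw [← norm_af, af_ag]

theorem ag_le (K : Cov n X) (i : Fin K.m) {z : Cn n} {R : ℝ} (h : ‖ag K i z‖ ≤ R) :
    z ∈ closedBall (K.a i) (R * K.r i) := by
  rw [mem_closedBall, norm_ag, mul_comm]
  exact mul_le_mul_of_nonneg_right h (K.r_pos i).le

theorem sub_target (K : Cov n X) (i : Fin K.m) {R : ℝ} (hR : R ≤ 4) :
    closedBall (K.a i) (R * K.r i) ⊆ (K.e i).1.target :=
  (closedBall_subset_closedBall (mul_le_mul_of_nonneg_right hR (K.r_pos i).le)).trans (K.ball i)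

/-- rescaled test functions -/
noncomputable def sc (K : Cov n X) (i : Fin K.m) : TestSub n →ₗ[ℂ] C0 (K.e i) where
  toFun u := ⟨fun z => u.1 (ag K i z), by
    refine ⟨u.2.1.comp (ag_contDiff K i), closedBall (K.a i) (7 / 2 * K.r i),
      isCompact_closedBall _ _, sub_target K i (by norm_num), fun z hz => ?_⟩
    by_contra h
    apply hz
    apply ag_le
    rw [pi_norm_le_iff_of_nonneg (by norm_num)]
    exact u.2.2 _ h⟩
  map_add' u v := rfl
  map_smul' c u := rfl

theorem sc_apply (K : Cov n X) (i : Fin K.m) (u : TestSub n) (z : Cn n) :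
    (sc K i u).1 z = u.1 (ag K i z) := rfl

theorem dbar_ag (K : Cov n X) (i : Fin K.m) (j : Fin n) {h : Cn n → ℂ}
    (hh : ContDiff ℝ ∞ h) (z : Cn n) :
    dbar j (fun z => h (ag K i z)) z = ((K.r i)⁻¹ : ℂ) * dbar j h (ag K i z) := by
  have h1 : ∀ v, fderiv ℝ (fun z => h (ag K i z)) z v =
      ((K.r i)⁻¹ : ℂ) * fderiv ℝ h (ag K i z) v := by
    intro v
    have e1 : HasFDerivAt (ag K i) ((K.r i)⁻¹ • ContinuousLinearMap.id ℝ (Cn n)) z := by
      have := ((hasFDerivAt_id (𝕜 := ℝ) z).sub_const (K.a i)).const_smul (K.r i)⁻¹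
      exact this
    have e2 : HasFDerivAt h (fderiv ℝ h (ag K i z)) (ag K i z) :=
      (hh.differentiable (by simp) _).hasFDerivAt
    have e3 := e2.comp z e1
    have e4 : fderiv ℝ (fun z => h (ag K i z)) z =
        (fderiv ℝ h (ag K i z)).comp ((K.r i)⁻¹ • ContinuousLinearMap.id ℝ (Cn n)) := e3.fderiv
    rw [e4, ContinuousLinearMap.comp_apply]
    show fderiv ℝ h (ag K i z) ((K.r i)⁻¹ • v) = _
    rw [map_smul, Complex.real_smul]
    push_cast
    rfl
  unfold dbar
  rw [h1, h1]
  ring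

/-! ### The localised coefficients -/

/-- the coefficient of `chi f` in the `i`-th chart -/
noncomputable def cc (K : Cov n X) (i : Fin K.m) (f : A0 X n) (z : Cn n) : ℂ :=
  ((K.chi i).fn ((K.e i).1.symm z) : ℂ) * cf (f.1.1 (K.e i) z)

theorem cc_supp (K : Cov n X) (i : Fin K.m) (f : A0 X n) {z : Cn n} (h : cc K i f z ≠ 0) :
    z ∈ closedBall (K.a i) (K.r i) := by
  have h1 : z ∈ (K.e i).1.target := by
    by_contra hc
    apply h
    unfold cc
    rw [cf_off _ _ hc, mul_zero]
  have h2 : (K.chi i).fn ((K.e i).1.symm z) ≠ 0 := by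
    intro hc
    apply h
    unfold cc
    rw [hc]
    simp
  have h3 := (K.supp i _ h2).2
  rwa [(K.e i).1.right_inv h1] at h3

theorem chi_contDiffOn (K : Cov n X) (i : Fin K.m) (e : atlas (Cn n) X) :
    ContDiffOn ℝ ∞ (fun z => ((K.chi i).fn (e.1.symm z) : ℂ)) e.1.target :=
  Complex.ofRealCLM.contDiff.comp_contDiffOn ((K.chi i).smooth e)

theorem cc_indicator (K : Cov n X) (i : Fin K.m) (f : A0 X n) :
    (K.e i).1.target.indicator (cc K i f) = cc K i f := by
  funext z
  by_cases hz : z ∈ (K.e i).1.target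
  · exact indicator_of_mem hz _
  · rw [indicator_of_notMem hz]
    unfold cc
    rw [cf_off _ _ hz, mul_zero]

theorem cc_mem (K : Cov n X) (i : Fin K.m) (f : A0 X n) : cc K i f ∈ C0 (K.e i) := by
  rw [← cc_indicator]
  refine mkC0 (K.e i) ((chi_contDiffOn K i _).mul (cf_contDiffOn f.1 (K.e i)))
    (isCompact_closedBall (K.a i) (K.r i)) ?_ (fun z _ hz => ?_)
  · have := sub_target K i (R := 1) (by norm_num)
    rwa [one_mul] at this
  · by_contra h
    exact hz (cc_supp K i f h)

/-- the localised coefficient as an element of `C0` -/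
noncomputable def cC (K : Cov n X) (i : Fin K.m) (f : A0 X n) : C0 (K.e i) := ⟨cc K i f, cc_mem K i f⟩

theorem cc_af_good (K : Cov n X) (i : Fin K.m) (f : A0 X n) :
    Good [] (fun y => cc K i f (af K i y)) := by
  refine ⟨(cc_mem K i f).1.comp (af_contDiff K i), fun y hy k => ?_⟩
  have h1 := cc_supp K i f hy
  rw [mem_closedBall, norm_af] at h1
  have h2 : ‖y‖ ≤ 1 := by
    have h3 := K.r_pos i
    by_contra h4
    push Not at h4
    nlinarith
  have h3 : ‖y k‖ ≤ 1 := (norm_le_pi_norm y k).trans h2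
  exact ⟨h3.trans (by norm_num), fun _ => h3⟩

/-- the localised coefficients as linear maps -/
noncomputable def cl (K : Cov n X) (i : Fin K.m) : A0 X n →ₗ[ℂ] (Cn n → ℂ) where
  toFun f := fun y => cc K i f (af K i y)
  map_add' f g := by
    funext y
    show cc K i (f + g) (af K i y) = cc K i f (af K i y) + cc K i g (af K i y)
    unfold cc
    rw [← mul_add]
    rfl
  map_smul' c f := by
    funext y
    show cc K i (c • f) (af K i y) = c * cc K i f (af K i y)
    unfold cc
    rw [mul_left_comm]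
    rfl

variable [IsManifold 𝓘(ℂ, Cn n) ω X] [T2Space X]

/-- a `(0,n)`-form is the sum of its localisations -/
theorem sum_exA (K : Cov n X) (f : A0 X n) : f = ∑ i, exA (K.e i) (cC K i f) := by
  have h1 : ∀ i, (exA (K.e i) (cC K i f)).1 = fmul (K.chi i) f.1 := by
    intro i
    apply form_ext_off (K.e i)
    · exact extS_off _ _
    · intro e' y hy hyn
      rw [fmul_apply]
      have h2 : (K.chi i).fn (e'.1.symm y) = 0 := by
        by_contra h
        exact hyn (K.supp i _ h).1
      rw [h2]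
      exact zero_smul ℝ (f.1.1 e' y)
    · intro y hy
      have h2 : (exA (K.e i) (cC K i f)).1.1 (K.e i) y = (cC K i f).1 y • Dbar n := by
        have h3 : (extS (K.e i) (cC K i f)).1 (K.e i) = (tD (K.e i) (Dbar n) (cC K i f)).1 :=
          ext_self _ _
        exact congrFun h3 y
      rw [h2, fmul_apply]
      have h4 : (K.chi i).fn ((K.e i).1.symm y) • f.1.1 (K.e i) y =
          (K.chi i).fn ((K.e i).1.symm y) • (cf (f.1.1 (K.e i) y) • Dbar n) := by
        rw [← A0_eq]
      rw [h4]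
      show (cc K i f y) • Dbar n = _
      unfold cc
      rw [mul_smul]
      rfl
  apply Subtype.ext
  have h5 := sum_fmul Finset.univ K.chi K.sum_one f.1
  rw [← h5]
  have h6 : (∑ i, exA (K.e i) (cC K i f) : A0 X n).1 = ∑ i, (exA (K.e i) (cC K i f)).1 :=
    Submodule.coe_sum _ _ _
  rw [h6]
  exact (Finset.sum_congr rfl fun i _ => h1 i).symm

theorem chi_le_one (K : Cov n X) (i : Fin K.m) (x : X) : (K.chi i).fn x ≤ 1 := by
  rw [← K.sum_one x]
  exact Finset.single_le_sum (f := fun i => (K.chi i).fn x) (fun i _ => K.nonneg i x)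
    (Finset.mem_univ i)

theorem det_continuousOn (e e' : atlas (Cn n) X) :
    ContinuousOn (fun z => (fderiv ℂ (tr e e') z).det) (dom e e') := by
  have h1 : ContDiffOn ℂ ω (tr e e') (dom e e') := fun z hz =>
    (tr_contDiffAt e e' hz).contDiffWithinAt
  have h2 := h1.continuousOn_fderiv_of_isOpen (isOpen_dom e e') (by simp)
  exact ContinuousLinearMap.continuous_det.comp_continuousOn h2

/-- bound of the localised coefficients of extensions by zero -/
theorem cl_bound (K : Cov n X) (i j : Fin K.m) : ∃ C : ℝ, 0 ≤ C ∧ ∀ (u : TestSub n) (M : ℝ),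
    (∀ z, ‖u.1 z‖ ≤ M) → ∀ y, ‖cl K j (exA (K.e i) (sc K i u)) y‖ ≤ C * M := by
  -- the compact set
  let P : Set X := (K.e j).1.symm '' closedBall (K.a j) (K.r j) ∩
    (K.e i).1.symm '' closedBall (K.a i) (7 / 2 * K.r i)
  have hj : closedBall (K.a j) (K.r j) ⊆ (K.e j).1.target := by
    have := sub_target K j (R := 1) (by norm_num)
    rwa [one_mul] at this
  have hi : closedBall (K.a i) (7 / 2 * K.r i) ⊆ (K.e i).1.target :=
    sub_target K i (by norm_num)
  have hP : IsCompact P :=
    ((isCompact_closedBall _ _).image_of_continuousOn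
      ((K.e j).1.continuousOn_symm.mono hj)).inter
    ((isCompact_closedBall _ _).image_of_continuousOn
      ((K.e i).1.continuousOn_symm.mono hi))
  have hPj : P ⊆ (K.e j).1.source := by
    rintro x ⟨⟨z, hz, rfl⟩, -⟩
    exact (K.e j).1.map_target (hj hz)
  have hPi : P ⊆ (K.e i).1.source := by
    rintro x ⟨-, ⟨z, hz, rfl⟩⟩
    exact (K.e i).1.map_target (hi hz)
  have hS : IsCompact ((K.e j).1 '' P) :=
    hP.image_of_continuousOn ((K.e j).1.continuousOn.mono hPj)
  have hSd : (K.e j).1 '' P ⊆ dom (K.e j) (K.e i) := by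
    rintro z ⟨x, hx, rfl⟩
    refine ⟨(K.e j).1.map_source (hPj hx), ?_⟩
    rw [(K.e j).1.left_inv (hPj hx)]
    exact hPi hx
  obtain ⟨C, hC⟩ := hS.exists_bound_of_continuousOn ((det_continuousOn (K.e j) (K.e i)).mono hSd)
  refine ⟨max C 0, le_max_right _ _, fun u M hu y => ?_⟩
  have hM : 0 ≤ M := (norm_nonneg _).trans (hu 0)
  set z := af K j y with hz
  show ‖cc K j (exA (K.e i) (sc K i u)) z‖ ≤ _
  by_cases h0 : cc K j (exA (K.e i) (sc K i u)) z = 0
  · rw [h0, norm_zero]
    positivity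
  · have h1 := cc_supp K j _ h0
    have h2 : z ∈ dom (K.e j) (K.e i) := by
      by_contra hc
      apply h0
      unfold cc
      rw [exA_coe, cf_extS_zero _ _ _ hc, mul_zero]
    have h3 : cc K j (exA (K.e i) (sc K i u)) z = ((K.chi j).fn ((K.e j).1.symm z) : ℂ) *
        (u.1 (ag K i (tr (K.e j) (K.e i) z)) *
          conj (fderiv ℂ (tr (K.e j) (K.e i)) z).det) := by
      unfold cc
      rw [exA_coe, cf_extS _ _ _ h2, sc_apply]
    have h4 : u.1 (ag K i (tr (K.e j) (K.e i) z)) ≠ 0 := by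
      intro hc
      apply h0
      rw [h3, hc]
      ring
    have h5 : tr (K.e j) (K.e i) z ∈ closedBall (K.a i) (7 / 2 * K.r i) := by
      apply ag_le
      rw [pi_norm_le_iff_of_nonneg (by norm_num)]
      exact u.2.2 _ h4
    have h6 : z ∈ (K.e j).1 '' P := by
      refine ⟨(K.e j).1.symm z, ⟨⟨z, h1, rfl⟩, ⟨_, h5, ?_⟩⟩, (K.e j).1.right_inv h2.1⟩
      exact (K.e i).1.left_inv h2.2
    rw [h3, norm_mul, norm_mul]
    have h7 : ‖((K.chi j).fn ((K.e j).1.symm z) : ℂ)‖ ≤ 1 := by
      rw [Complex.norm_real, Real.norm_of_nonneg (K.nonneg _ _)]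
      exact chi_le_one K j _
    have h8 : ‖conj (fderiv ℂ (tr (K.e j) (K.e i)) z).det‖ ≤ max C 0 := by
      rw [RCLike.norm_conj]
      exact (hC z h6).trans (le_max_left _ _)
    calc ‖((K.chi j).fn ((K.e j).1.symm z) : ℂ)‖ *
          (‖u.1 (ag K i (tr (K.e j) (K.e i) z))‖ *
            ‖conj (fderiv ℂ (tr (K.e j) (K.e i)) z).det‖)
        ≤ 1 * (M * max C 0) :=
          mul_le_mul h7 (mul_le_mul (hu _) h8 (norm_nonneg _) hM) (by positivity) zero_le_one
      _ = max C 0 * M := by ring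

end Pool.Agent.H71.Fro
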