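import Pool.Agent.H71.Fro.Lin

set_option autoImplicit false

/-!
# Types of exterior derivatives of `(0,k)`-forms with constant frame
-/

namespace Pool.Agent.H71.Fro

open Set Function Pool.Agent.H73.Fro Pool.Agent.H71.Top
open scoped ComplexConjugate Topology

variable {n k : ℕ}

/-- the complex linear part -/
noncomputable def L10 (L : Cn n →L[ℝ] ℂ) : Cn n →L[ℝ] ℂ :=
  (1 / 2 : ℂ) • (L - Complex.I • L.comp (Complex.I • ContinuousLinearMap.id ℝ (Cn n)))

/-- the antilinear part -/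
noncomputable def L01 (L : Cn n →L[ℝ] ℂ) : Cn n →L[ℝ] ℂ :=
  (1 / 2 : ℂ) • (L + Complex.I • L.comp (Complex.I • ContinuousLinearMap.id ℝ (Cn n)))

theorem L10_apply (L : Cn n →L[ℝ] ℂ) (x : Cn n) :
    L10 L x = (1 / 2 : ℂ) * (L x - Complex.I * L (Complex.I • x)) := rfl

theorem L01_apply (L : Cn n →L[ℝ] ℂ) (x : Cn n) :
    L01 L x = (1 / 2 : ℂ) * (L x + Complex.I * L (Complex.I • x)) := rfl

theorem L_add (L : Cn n →L[ℝ] ℂ) : L10 L + L01 L = L := by
  refine ContinuousLinearMap.ext fun x => ?_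
  rw [add_apply, L10_apply, L01_apply]
  ring

theorem smul_expand (c : ℂ) (x : Cn n) : c • x = c.re • x + c.im • (Complex.I • x) := by
  conv_lhs => rw [← Complex.re_add_im c]
  rw [add_smul, mul_smul]
  rfl

theorem L_smul (L : Cn n →L[ℝ] ℂ) (c : ℂ) (x : Cn n) :
    L (c • x) = (c.re : ℂ) * L x + (c.im : ℂ) * L (Complex.I • x) := by
  rw [smul_expand c x, map_add, map_smul, map_smul]
  rfl

theorem L_smul_I (L : Cn n →L[ℝ] ℂ) (c : ℂ) (x : Cn n) :
    L (Complex.I • c • x) = (c.re : ℂ) * L (Complex.I • x) - (c.im : ℂ) * L x := by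
  rw [smul_comm, L_smul, smul_smul, Complex.I_mul_I, neg_one_smul, map_neg]
  ring

theorem re_im (c : ℂ) : c = (c.re : ℂ) + (c.im : ℂ) * Complex.I := (Complex.re_add_im c).symm

theorem conj_re_im (c : ℂ) : conj c = (c.re : ℂ) - (c.im : ℂ) * Complex.I := by
  apply Complex.ext <;> simp

theorem L10_smul (L : Cn n →L[ℝ] ℂ) (c : ℂ) (x : Cn n) : L10 L (c • x) = c * L10 L x := by
  rw [L10_apply, L10_apply, L_smul, L_smul_I]
  conv_rhs => rw [re_im c]
  linear_combination (-(1 / 2 : ℂ) * (c.im : ℂ) * L (Complex.I • x)) * -Complex.I_mul_I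

theorem L01_smul (L : Cn n →L[ℝ] ℂ) (c : ℂ) (x : Cn n) : L01 L (c • x) = conj c * L01 L x := by
  rw [L01_apply, L01_apply, L_smul, L_smul_I, conj_re_im c]
  linear_combination ((1 / 2 : ℂ) * (c.im : ℂ) * L (Complex.I • x)) * Complex.I_mul_I

/-- exterior multiplication by a linear functional -/
noncomputable def W (L : Cn n →L[ℝ] ℂ) (D : (Cn n) [⋀^Fin k]→L[ℝ] ℂ) :
    (Cn n) [⋀^Fin (k + 1)]→L[ℝ] ℂ :=
  ContinuousAlternatingMap.alternatizeUncurryFin (L.smulRight D)

theorem W_apply (L : Cn n →L[ℝ] ℂ) (D : (Cn n) [⋀^Fin k]→L[ℝ] ℂ) (v : Fin (k + 1) → Cn n) :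
    W L D v = ∑ i : Fin (k + 1), (-1) ^ (i : ℕ) • (L (v i) * D (i.removeNth v)) := by
  rw [W, ContinuousAlternatingMap.alternatizeUncurryFin_apply]
  rfl

theorem W_add (L L' : Cn n →L[ℝ] ℂ) (D : (Cn n) [⋀^Fin k]→L[ℝ] ℂ) :
    W (L + L') D = W L D + W L' D := by
  ext v
  rw [ContinuousAlternatingMap.add_apply, W_apply, W_apply, W_apply, ← Finset.sum_add_distrib]
  apply Finset.sum_congr rfl
  intro i _
  rw [add_apply, add_mul, smul_add]

theorem W_zero (D : (Cn n) [⋀^Fin k]→L[ℝ] ℂ) : W 0 D = 0 := by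
  ext v
  rw [W_apply]
  simp

theorem type_W10 (L : Cn n →L[ℝ] ℂ) {D : (Cn n) [⋀^Fin k]→L[ℝ] ℂ} (hD : IsType 0 k D) :
    IsType 1 k (W (L10 L) D) := by
  intro c v
  rw [W_apply, W_apply, Finset.mul_sum]
  apply Finset.sum_congr rfl
  intro i _
  have h1 : i.removeNth (fun i => c • v i) = fun j => c • (i.removeNth v) j := rfl
  rw [h1, hD c, L10_smul, mul_smul_comm]
  congr 1
  ring

theorem type_W01 (L : Cn n →L[ℝ] ℂ) {D : (Cn n) [⋀^Fin k]→L[ℝ] ℂ} (hD : IsType 0 k D) :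
    IsType 0 (k + 1) (W (L01 L) D) := by
  intro c v
  rw [W_apply, W_apply, Finset.mul_sum]
  apply Finset.sum_congr rfl
  intro i _
  have h1 : i.removeNth (fun i => c • v i) = fun j => c • (i.removeNth v) j := rfl
  rw [h1, hD c, L01_smul, mul_smul_comm]
  congr 1
  ring

theorem extDeriv_smul {h : Cn n → ℂ} {y : Cn n} (hh : DifferentiableAt ℝ h y)
    (D : (Cn n) [⋀^Fin k]→L[ℝ] ℂ) :
    extDeriv (fun z => h z • D) y = W (L10 (fderiv ℝ h y)) D + W (L01 (fderiv ℝ h y)) D := by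
  rw [← W_add, L_add, W, extDeriv]
  congr 1
  exact (hh.hasFDerivAt.smul_const D).fderiv

/-! ### The forms with one factor omitted -/

/-- contraction of `Dbar` with the `j`-th standard basis vector -/
noncomputable def Dj (j : Fin (k + 1)) : (Cn (k + 1)) [⋀^Fin k]→L[ℝ] ℂ :=
  (Dbar (k + 1)).curryLeft (std (k + 1) j)

theorem Dj_apply (j : Fin (k + 1)) (v : Fin k → Cn (k + 1)) :
    Dj j v = Dbar (k + 1) (Fin.cons (std (k + 1) j) v : Fin (k + 1) → Cn (k + 1)) := rfl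

theorem Dj_anti (j : Fin (k + 1)) : Anti (Dj j) := by
  intro v i c x
  rw [Dj_apply, Dj_apply, Fin.cons_update, Fin.cons_update]
  exact Dbar_anti _ _ _ _

theorem Dj_type (j : Fin (k + 1)) : IsType 0 k (Dj j) := anti_isType (Dj_anti j)

theorem cons_removeNth_eq (j : Fin (k + 1)) (v : Fin (k + 1) → Cn n) :
    (Fin.cons (v j) (j.removeNth v) : Fin (k + 1) → Cn n) = v ∘ (Fin.cycleRange j).symm := by
  funext a
  refine Fin.cases ?_ (fun b => ?_) a
  · rw [Fin.cons_zero, comp_apply, Fin.cycleRange_symm_zero]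
  · rw [Fin.cons_succ, comp_apply, Fin.cycleRange_symm_succ]
    rfl

theorem Dbar_perm (v : Fin n → Cn n) (σ : Equiv.Perm (Fin n)) :
    Dbar n (v ∘ σ) = ((Equiv.Perm.sign σ : ℤ) : ℂ) * Dbar n v := by
  have h := (Dbar n).toAlternatingMap.map_perm v σ
  have h2 : Dbar n (v ∘ σ) = Equiv.Perm.sign σ • Dbar n v := h
  rw [h2]
  rcases Int.units_eq_one_or (Equiv.Perm.sign σ) with h | h <;> rw [h] <;> simp

theorem cf_W (L : Cn (k + 1) →L[ℝ] ℂ) (j : Fin (k + 1)) : cf (W L (Dj j)) = L (std (k + 1) j) := by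
  unfold cf
  rw [W_apply, Finset.sum_eq_single j]
  · rw [Dj_apply, cons_removeNth_eq, Dbar_perm, Equiv.Perm.sign_symm, Fin.sign_cycleRange, Dbar_std,
      mul_one]
    have h1 : ∀ (a : ℕ) (z : ℂ), ((-1 : ℤ) ^ a) • (z * ((((-1 : ℤˣ) ^ a : ℤˣ) : ℤ) : ℂ)) = z := by
      intro a z
      rw [zsmul_eq_mul]
      push_cast
      have h2 : ((-1 : ℂ) ^ a) * ((-1 : ℂ) ^ a) = 1 := by
        rw [← mul_pow]
        simp
      linear_combination z * h2
    exact h1 _ _
  · intro i _ hij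
    obtain ⟨a, ha⟩ := Fin.exists_succAbove_eq (Ne.symm hij)
    have h1 : Dj j (i.removeNth (std (k + 1))) = 0 := by
      rw [Dj_apply]
      refine (Dbar (k + 1)).toAlternatingMap.map_eq_zero_of_eq _ (i := 0) (j := a.succ) ?_
        (Fin.succ_ne_zero a).symm
      rw [Fin.cons_zero, Fin.cons_succ]
      show std (k + 1) j = std (k + 1) (i.succAbove a)
      rw [ha]
    rw [h1, mul_zero, smul_zero]
  · intro h
    exact absurd (Finset.mem_univ j) h

theorem dbar_eq (j : Fin n) (h : Cn n → ℂ) (y : Cn n) :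
    dbar j h y = L01 (fderiv ℝ h y) (std n j) := by
  rw [L01_apply]
  have h1 : Complex.I • std n j = Pi.single j Complex.I := by
    unfold std
    rw [← Pi.single_smul, smul_eq_mul, mul_one]
  rw [h1]
  rfl

/-- the exterior derivative of `h • Dj j` is `dbar j h • Dbar` modulo forms of type `(1,k)` -/
theorem extDeriv_Dj {h : Cn (k + 1) → ℂ} {y : Cn (k + 1)} (hh : DifferentiableAt ℝ h y)
    (j : Fin (k + 1)) :
    IsType 1 k (extDeriv (fun z => h z • Dj j) y - dbar j h y • Dbar (k + 1)) := by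
  rw [extDeriv_smul hh, type_eq (type_W01 (fderiv ℝ h y) (Dj_type j)), cf_W, ← dbar_eq,
    add_sub_cancel_right]
  exact type_W10 _ (Dj_type j)

theorem L10_eq_zero (L : Cn n →L[ℝ] ℂ) (h : ∀ j, L10 L (std n j) = 0) : L10 L = 0 := by
  refine ContinuousLinearMap.ext fun x => ?_
  have h1 : x = ∑ j, x j • std n j := by
    funext i
    rw [Finset.sum_apply]
    simp [std, Pi.single_apply]
  rw [h1, map_sum, zero_apply]
  apply Finset.sum_eq_zero
  intro j _
  rw [L10_smul, h j, mul_zero]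

theorem L10_conj {c : Cn n → ℂ} {y : Cn n} (hc : DifferentiableAt ℝ c y) (j : Fin n) :
    L10 (fderiv ℝ c y) (std n j) = conj (dbar j (fun z => conj (c z)) y) := by
  have h1 : ∀ x, fderiv ℝ (fun z => conj (c z)) y x = conj (fderiv ℝ c y x) := by
    intro x
    have h2 : HasFDerivAt (fun z => conj (c z))
        ((Complex.conjCLE : ℂ →L[ℝ] ℂ).comp (fderiv ℝ c y)) y :=
      (Complex.conjCLE : ℂ →L[ℝ] ℂ).hasFDerivAt.comp y hc.hasFDerivAt
    rw [h2.fderiv]
    rfl
  rw [dbar_eq, L01_apply, h1, h1, L10_apply]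
  simp only [map_mul, map_add, Complex.conj_conj, Complex.conj_I, map_div₀, map_one, map_ofNat]
  ring

/-- forms `c • Dbar` with antiholomorphic coefficient are closed -/
theorem extDeriv_Dbar {c : Cn n → ℂ} {y : Cn n} (hc : DifferentiableAt ℝ c y)
    (h : ∀ j, dbar j (fun z => conj (c z)) y = 0) :
    extDeriv (fun z => c z • Dbar n) y = 0 := by
  rw [extDeriv_smul hc]
  have h1 : L10 (fderiv ℝ c y) = 0 := by
    apply L10_eq_zero
    intro j
    rw [L10_conj hc, h j, map_zero]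
  have h2 : W (L01 (fderiv ℝ c y)) (Dbar n) = 0 :=
    anti_zero (isType_anti (type_W01 _ (anti_isType Dbar_anti))) (Nat.lt_succ_self n)
  rw [h1, h2, W_zero, add_zero]

end Pool.Agent.H71.Fro
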