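import Pool.Agent.H73.Fro.Int2
import Pool.Agent.H71.Fro.Lin2

set_option autoImplicit false

/-!
# Extension by zero of forms supported in a chart
-/

namespace Pool.Agent.H71.Fro

open Set Function Pool.Agent.H73.Fro Pool.Agent.H71.Top
open scoped Manifold ContDiff ComplexConjugate Topology

variable {n k : ℕ} {X : Type*} [TopologicalSpace X] [ChartedSpace (Cn n) X]

/-- smooth local expressions with compact support in the target of the chart `e` -/
def CS (e : atlas (Cn n) X) (k : ℕ) : Submodule ℂ (Cn n → (Cn n) [⋀^Fin k]→L[ℝ] ℂ) where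
  carrier := {w | ContDiff ℝ ∞ w ∧ ∃ K : Set (Cn n), IsCompact K ∧ K ⊆ e.1.target ∧
    ∀ y ∉ K, w y = 0}
  add_mem' := by
    rintro w w' ⟨h1, K, h2, h3, h4⟩ ⟨g1, K', g2, g3, g4⟩
    refine ⟨h1.add g1, K ∪ K', h2.union g2, union_subset h3 g3, fun y hy => ?_⟩
    rw [mem_union, not_or] at hy
    show w y + w' y = 0
    rw [h4 y hy.1, g4 y hy.2, add_zero]
  zero_mem' := ⟨contDiff_const, ∅, isCompact_empty, empty_subset _, fun y _ => rfl⟩
  smul_mem' := by
    rintro c w ⟨h1, K, h2, h3, h4⟩
    refine ⟨contDiff_const.smul h1, K, h2, h3, fun y hy => ?_⟩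
    show c • w y = 0
    rw [h4 y hy]
    exact smul_zero (A := (Cn n) [⋀^Fin k]→L[ℝ] ℂ) c

/-- smooth functions with compact support in the target of the chart `e` -/
def C0 (e : atlas (Cn n) X) : Submodule ℂ (Cn n → ℂ) where
  carrier := {u | ContDiff ℝ ∞ u ∧ ∃ K : Set (Cn n), IsCompact K ∧ K ⊆ e.1.target ∧
    ∀ y ∉ K, u y = 0}
  add_mem' := by
    rintro w w' ⟨h1, K, h2, h3, h4⟩ ⟨g1, K', g2, g3, g4⟩
    refine ⟨h1.add g1, K ∪ K', h2.union g2, union_subset h3 g3, fun y hy => ?_⟩
    rw [mem_union, not_or] at hy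
    show w y + w' y = 0
    rw [h4 y hy.1, g4 y hy.2, add_zero]
  zero_mem' := ⟨contDiff_const, ∅, isCompact_empty, empty_subset _, fun y _ => rfl⟩
  smul_mem' := by
    rintro c w ⟨h1, K, h2, h3, h4⟩
    refine ⟨contDiff_const.mul h1, K, h2, h3, fun y hy => ?_⟩
    show c * w y = 0
    rw [h4 y hy, mul_zero]

/-- multiplication of a constant form by functions -/
noncomputable def tD (e : atlas (Cn n) X) (D : (Cn n) [⋀^Fin k]→L[ℝ] ℂ) : C0 e →ₗ[ℂ] CS e k where
  toFun u := ⟨fun y => u.1 y • D, by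
    obtain ⟨h1, K, h2, h3, h4⟩ := u.2
    refine ⟨?_, K, h2, h3, fun y hy => ?_⟩
    · exact h1.smul contDiff_const
    · show u.1 y • D = 0
      rw [h4 y hy]
      exact zero_smul ℂ D⟩
  map_add' u v := by
    apply Subtype.ext
    funext y
    exact add_smul (u.1 y) (v.1 y) D
  map_smul' c u := by
    apply Subtype.ext
    funext y
    exact mul_smul c (u.1 y) D

theorem tD_apply (e : atlas (Cn n) X) (D : (Cn n) [⋀^Fin k]→L[ℝ] ℂ) (u : C0 e) (y : Cn n) :
    (tD e D u).1 y = u.1 y • D := rfl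

/-- transition maps -/
noncomputable def tr (e e' : atlas (Cn n) X) (y : Cn n) : Cn n := e'.1 (e.1.symm y)

/-- domain of the transition map -/
def dom (e e' : atlas (Cn n) X) : Set (Cn n) := {y | y ∈ e.1.target ∧ e.1.symm y ∈ e'.1.source}

theorem isOpen_dom (e e' : atlas (Cn n) X) : IsOpen (dom e e') := by
  have h : dom e e' = (e.1.symm ≫ₕ e'.1).source := by
    rw [OpenPartialHomeomorph.trans_source]
    rfl
  rw [h]
  exact (e.1.symm ≫ₕ e'.1).open_source

theorem tr_self (e : atlas (Cn n) X) {y : Cn n} (hy : y ∈ e.1.target) : tr e e y = y :=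
  e.1.right_inv hy

theorem fderiv_tr_self (e : atlas (Cn n) X) {y : Cn n} (hy : y ∈ e.1.target) :
    fderiv ℝ (tr e e) y = ContinuousLinearMap.id ℝ (Cn n) := by
  have h : tr e e =ᶠ[𝓝 y] id := by
    filter_upwards [e.1.open_target.mem_nhds hy] with z hz
    exact tr_self e hz
  rw [h.fderiv_eq]
  exact fderiv_id

/-- the local expression of the extension by zero -/
noncomputable def extFun (e : atlas (Cn n) X) (w : Cn n → (Cn n) [⋀^Fin k]→L[ℝ] ℂ)
    (e' : atlas (Cn n) X) : Cn n → (Cn n) [⋀^Fin k]→L[ℝ] ℂ :=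
  (dom e' e).indicator fun y => (w (tr e' e y)).compContinuousLinearMap (fderiv ℝ (tr e' e) y)

section Mfd

variable [IsManifold 𝓘(ℂ, Cn n) ω X]

theorem tr_contDiffAt (e e' : atlas (Cn n) X) {y : Cn n} (hy : y ∈ dom e e') :
    ContDiffAt ℂ ω (tr e e') y := contDiffAt_transition e e' hy.1 hy.2

theorem tr_contDiffOn (e e' : atlas (Cn n) X) : ContDiffOn ℝ ∞ (tr e e') (dom e e') :=
  fun _ hy => (((tr_contDiffAt e e' hy).restrict_scalars ℝ).of_le (by simp)).contDiffWithinAt

theorem tr_diff (e e' : atlas (Cn n) X) {y : Cn n} (hy : y ∈ dom e e') :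
    DifferentiableAt ℝ (tr e e') y :=
  (((tr_contDiffAt e e' hy).restrict_scalars ℝ).of_le (m := ∞) (by simp)).differentiableAt
    (by simp)

theorem fderiv_tr (e e' : atlas (Cn n) X) {y : Cn n} (hy : y ∈ dom e e') :
    fderiv ℝ (tr e e') y = (fderiv ℂ (tr e e') y).restrictScalars ℝ :=
  ((tr_contDiffAt e e' hy).differentiableAt (by simp)).fderiv_restrictScalars ℝ

theorem fderiv_tr_contDiffOn (e e' : atlas (Cn n) X) :
    ContDiffOn ℝ ∞ (fderiv ℝ (tr e e')) (dom e e') :=
  (tr_contDiffOn e e').fderiv_of_isOpen (isOpen_dom e e') (by simp)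

/-- chain rule for transition maps -/
theorem tr_chain (e e' e'' : atlas (Cn n) X) {y : Cn n} (hy : y ∈ dom e e') (hy2 : y ∈ dom e e'') :
    tr e' e'' (tr e e' y) = tr e e'' y ∧ tr e e' y ∈ dom e' e'' ∧
      fderiv ℝ (tr e e'') y = (fderiv ℝ (tr e' e'') (tr e e' y)).comp (fderiv ℝ (tr e e') y) := by
  have h0 : ∀ z ∈ dom e e', tr e' e'' (tr e e' z) = tr e e'' z := by
    intro z hz
    unfold tr
    rw [e'.1.left_inv hz.2]
  have h1 : tr e e' y ∈ dom e' e'' := by
    refine ⟨e'.1.map_source hy.2, ?_⟩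
    unfold tr
    rw [e'.1.left_inv hy.2]
    exact hy2.2
  refine ⟨h0 y hy, h1, ?_⟩
  have h2 : tr e e'' =ᶠ[𝓝 y] (tr e' e'') ∘ (tr e e') := by
    filter_upwards [(isOpen_dom e e').mem_nhds hy] with z hz
    exact (h0 z hz).symm
  rw [h2.fderiv_eq]
  exact fderiv_comp y (tr_diff e' e'' h1) (tr_diff e e' hy)

variable [T2Space X]

/-- extension by zero of a local expression with compact support -/
noncomputable def ext (e : atlas (Cn n) X) : CS e k →ₗ[ℂ] Form n X k where
  toFun w := ⟨extFun e w.1, by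
    obtain ⟨h1, K, h2, h3, h4⟩ := w.2
    refine ⟨fun e' => ?_, fun e' y hy => ?_, fun e' e'' y hy hy' => ?_⟩
    · intro y hy
      by_cases hd : y ∈ dom e' e
      · have g1 : ContDiffOn ℝ ∞ (fun y => (w.1 (tr e' e y)).compContinuousLinearMap
            (fderiv ℝ (tr e' e) y)) (dom e' e) :=
          contDiffOn_pullback (h1.comp_contDiffOn (tr_contDiffOn e' e))
            (fderiv_tr_contDiffOn e' e)
        have g2 : ContDiffOn ℝ ∞ (extFun e w.1 e') (dom e' e) :=
          g1.congr fun z hz => indicator_of_mem hz _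
        exact (g2.contDiffAt ((isOpen_dom e' e).mem_nhds hd)).contDiffWithinAt
      · have hK : IsClosed (e.1.symm '' K) :=
          (h2.image_of_continuousOn (e.1.continuousOn_symm.mono h3)).isClosed
        have hns : e'.1.symm y ∉ e.1.symm '' K := by
          rintro ⟨z, hz, hzy⟩
          apply hd
          refine ⟨hy, ?_⟩
          rw [← hzy]
          exact e.1.map_target (h3 hz)
        have hev : ∀ᶠ z in 𝓝 y, extFun e w.1 e' z = 0 := by
          have g1 : ∀ᶠ z in 𝓝 y, e'.1.symm z ∈ (e.1.symm '' K)ᶜ :=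
            (e'.1.continuousAt_symm hy).eventually (hK.isOpen_compl.mem_nhds hns)
          filter_upwards [g1] with z hz
          by_cases hz2 : z ∈ dom e' e
          · unfold extFun
            rw [indicator_of_mem hz2]
            have g2 : tr e' e z ∉ K := by
              intro hc
              apply hz
              refine ⟨_, hc, ?_⟩
              exact e.1.left_inv hz2.2
            rw [h4 _ g2]
            ext v
            simp
          · exact indicator_of_notMem hz2 _
        have hev2 : extFun e w.1 e' =ᶠ[𝓝 y] fun _ => 0 := hev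
        exact (contDiffAt_const.congr_of_eventuallyEq hev2).contDiffWithinAt
    · exact indicator_of_notMem (fun h => hy h.1) _
    · have hd : y ∈ dom e' e'' := ⟨hy, hy'⟩
      change extFun e w.1 e' y = (extFun e w.1 e'' (tr e' e'' y)).compContinuousLinearMap
        (fderiv ℝ (tr e' e'') y)
      unfold extFun
      by_cases hd2 : y ∈ dom e' e
      · obtain ⟨g1, g2, g3⟩ := tr_chain e' e'' e hd hd2
        rw [indicator_of_mem hd2, indicator_of_mem g2, g1, g3]
        rfl
      · have hd3 : tr e' e'' y ∉ dom e'' e := by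
          intro hc
          apply hd2
          refine ⟨hy, ?_⟩
          have := hc.2
          unfold tr at this
          rwa [e''.1.left_inv hy'] at this
        rw [indicator_of_notMem hd2, indicator_of_notMem hd3]
        ext v
        simp⟩
  map_add' w w' := by
    apply form_ext
    intro e' y _
    change extFun e (w.1 + w'.1) e' y = extFun e w.1 e' y + extFun e w'.1 e' y
    unfold extFun
    by_cases hd : y ∈ dom e' e
    · rw [indicator_of_mem hd, indicator_of_mem hd, indicator_of_mem hd]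
      ext v
      simp
    · rw [indicator_of_notMem hd, indicator_of_notMem hd, indicator_of_notMem hd, add_zero]
  map_smul' c w := by
    apply form_ext
    intro e' y _
    change extFun e (c • w.1) e' y = c • extFun e w.1 e' y
    unfold extFun
    by_cases hd : y ∈ dom e' e
    · rw [indicator_of_mem hd, indicator_of_mem hd]
      ext v
      simp
    · rw [indicator_of_notMem hd, indicator_of_notMem hd]
      exact (smul_zero (A := (Cn n) [⋀^Fin k]→L[ℝ] ℂ) c).symm

theorem ext_apply (e : atlas (Cn n) X) (w : CS e k) (e' : atlas (Cn n) X) {y : Cn n}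
    (hy : y ∈ dom e' e) : (ext e w).1 e' y =
      (w.1 (tr e' e y)).compContinuousLinearMap (fderiv ℝ (tr e' e) y) := by
  change extFun e w.1 e' y = _
  unfold extFun
  rw [indicator_of_mem hy]

theorem ext_zero (e : atlas (Cn n) X) (w : CS e k) (e' : atlas (Cn n) X) {y : Cn n}
    (hy : y ∉ dom e' e) : (ext e w).1 e' y = 0 := by
  change extFun e w.1 e' y = _
  unfold extFun
  rw [indicator_of_notMem hy]

theorem ext_self (e : atlas (Cn n) X) (w : CS e k) : (ext e w).1 e = w.1 := by
  funext y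
  by_cases hy : y ∈ e.1.target
  · rw [ext_apply e w e ⟨hy, e.1.map_target hy⟩, fderiv_tr_self e hy, tr_self e hy]
    rfl
  · rw [ext_zero e w e fun h => hy h.1]
    obtain ⟨h1, K, h2, h3, h4⟩ := w.2
    exact (h4 y fun h => hy (h3 h)).symm

omit [IsManifold 𝓘(ℂ, Cn n) ω X] [T2Space X] in
/-- forms vanishing off a chart are determined by their local expression in this chart -/
theorem form_ext_off (e : atlas (Cn n) X) {a b : Form n X k} (ha : Off a e.1.source)
    (hb : Off b e.1.source) (h : ∀ y ∈ e.1.target, a.1 e y = b.1 e y) : a = b := by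
  apply form_ext
  intro e' y hy
  by_cases hs : e'.1.symm y ∈ e.1.source
  · rw [form_compat a e' e hy hs, form_compat b e' e hy hs, h _ (e.1.map_source hs)]
  · rw [ha e' y hy hs, hb e' y hy hs]

theorem ext_off (e : atlas (Cn n) X) (w : CS e k) : Off (ext e w) e.1.source :=
  fun e' _ _ hys => ext_zero e w e' fun h => hys h.2

theorem ext_off' (e : atlas (Cn n) X) (w : CS e k) : ∃ K : Set X, IsClosed K ∧
    K ⊆ e.1.source ∧ Off (ext e w) K := by
  obtain ⟨h1, K, h2, h3, h4⟩ := w.2
  refine ⟨e.1.symm '' K, (h2.image_of_continuousOn (e.1.continuousOn_symm.mono h3)).isClosed,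
    ?_, fun e' y hy hyK => ?_⟩
  · rintro _ ⟨z, hz, rfl⟩
    exact e.1.map_target (h3 hz)
  · by_cases hd : y ∈ dom e' e
    · rw [ext_apply e w e' hd, h4]
      · ext v
        simp
      · intro hc
        exact hyK ⟨_, hc, e.1.left_inv hd.2⟩
    · exact ext_zero e w e' hd

omit [IsManifold 𝓘(ℂ, Cn n) ω X] [T2Space X] in
theorem extDeriv_zero_of_ev {w : Cn n → (Cn n) [⋀^Fin k]→L[ℝ] ℂ} {y : Cn n}
    (h : w =ᶠ[𝓝 y] fun _ => 0) : extDeriv w y = 0 := by
  rw [h.extDeriv_eq]
  ext v
  rw [extDeriv, ContinuousAlternatingMap.alternatizeUncurryFin_apply]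
  have : fderiv ℝ (fun _ : Cn n => (0 : (Cn n) [⋀^Fin k]→L[ℝ] ℂ)) y = 0 := by
    exact fderiv_const_apply _
  rw [this]
  simp

/-- the exterior derivative of a compactly supported local expression -/
noncomputable def dCS (e : atlas (Cn n) X) (w : CS e k) : CS e (k + 1) :=
  ⟨extDeriv w.1, by
    obtain ⟨h1, K, h2, h3, h4⟩ := w.2
    refine ⟨?_, K, h2, h3, fun y hy => ?_⟩
    · have h5 : ContDiff ℝ ∞ (fderiv ℝ w.1) := h1.fderiv_right (by simp)
      exact (ContinuousAlternatingMap.alternatizeUncurryFinCLM (n := k) ℝ (Cn n)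
          ℂ).contDiff.comp (n := ∞) h5
    · apply extDeriv_zero_of_ev
      filter_upwards [h2.isClosed.isOpen_compl.mem_nhds hy] with z hz
      exact h4 z hz⟩

theorem extD_ext (e : atlas (Cn n) X) (w : CS e k) : extD n X k (ext e w) = ext e (dCS e w) := by
  obtain ⟨K, hK1, hK2, hK3⟩ := ext_off' e w
  apply form_ext_off e ((hK3.extD hK1).mono hK2) (ext_off e _)
  intro y hy
  rw [extD_apply _ e hy, ext_self, ext_self]
  rfl

theorem ext_type (e : atlas (Cn n) X) {p q : ℕ} (w : CS e k) (h : ∀ y, IsType p q (w.1 y)) :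
    ext e w ∈ Apq n X p q k := by
  intro e' y
  by_cases hd : y ∈ dom e' e
  · rw [ext_apply e w e' hd, fderiv_tr e' e hd]
    exact isType_comp (h _) _
  · rw [ext_zero e w e' hd]
    exact isType_zero

/-- extension by zero of a compactly supported function times `Dbar` -/
noncomputable def extS (e : atlas (Cn n) X) : C0 e →ₗ[ℂ] Form n X n := ext e ∘ₗ tD e (Dbar n)

theorem extS_type (e : atlas (Cn n) X) (u : C0 e) : extS e u ∈ Apq n X 0 n n :=
  ext_type e _ fun _ => isType_smul (anti_isType Dbar_anti) _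

theorem extS_off (e : atlas (Cn n) X) (u : C0 e) : Off (extS e u) e.1.source := ext_off e _

theorem cf_extS (e : atlas (Cn n) X) (u : C0 e) (e' : atlas (Cn n) X) {y : Cn n}
    (hy : y ∈ dom e' e) :
    cf ((extS e u).1 e' y) = u.1 (tr e' e y) * conj (fderiv ℂ (tr e' e) y).det := by
  have h : (extS e u).1 e' y = ((tD e (Dbar n) u).1 (tr e' e y)).compContinuousLinearMap
      (fderiv ℝ (tr e' e) y) := ext_apply e _ e' hy
  rw [h, fderiv_tr e' e hy, tD_apply, cf_comp]

theorem cf_extS_zero (e : atlas (Cn n) X) (u : C0 e) (e' : atlas (Cn n) X) {y : Cn n}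
    (hy : y ∉ dom e' e) : cf ((extS e u).1 e' y) = 0 := by
  have h : (extS e u).1 e' y = 0 := ext_zero e _ e' hy
  rw [h]
  rfl

theorem cf_extS_self (e : atlas (Cn n) X) (u : C0 e) (y : Cn n) :
    cf ((extS e u).1 e y) = u.1 y := by
  have h : (extS e u).1 e = (tD e (Dbar n) u).1 := ext_self e _
  rw [h, tD_apply, cf_Dbar]

end Mfd

end Pool.Agent.H71.Fro
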