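import Mathlib

set_option autoImplicit false

/-!
# Smoothness of maps into spaces of alternating forms on a finite dimensional space
-/

namespace Pool.Agent.H71.Fro

open Set Function

variable {E : Type*} [NormedAddCommGroup E] [NormedSpace ℝ E] [FiniteDimensional ℝ E]
  {G : Type*} [NormedAddCommGroup G] [NormedSpace ℝ G] {k : ℕ} {N : WithTop ℕ∞}

/-- evaluation on tuples of basis vectors -/
noncomputable def evB (b : Module.Basis (Fin (Module.finrank ℝ E)) ℝ E) (k : ℕ) :
    (E [⋀^Fin k]→L[ℝ] ℂ) →ₗ[ℝ] ((Fin k → Fin (Module.finrank ℝ E)) → ℂ) where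
  toFun f := fun s => f (fun i => b (s i))
  map_add' f g := rfl
  map_smul' c f := rfl

theorem evB_injective (b : Module.Basis (Fin (Module.finrank ℝ E)) ℝ E) :
    Injective (evB b k) := by
  intro f g h
  have h2 : f.toAlternatingMap = g.toAlternatingMap := by
    apply Module.Basis.ext_alternating b
    intro s _
    exact congrFun h s
  ext v
  exact congrArg (fun f : E [⋀^Fin k]→ₗ[ℝ] ℂ => f v) h2

/-- A map into the alternating forms is smooth if all its evaluations are. -/
theorem contDiffOn_alt {F : G → E [⋀^Fin k]→L[ℝ] ℂ} {s : Set G}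
    (h : ∀ v : Fin k → E, ContDiffOn ℝ N (fun y => F y v) s) : ContDiffOn ℝ N F s := by
  let b := Module.finBasis ℝ E
  have hfin : FiniteDimensional ℝ (E [⋀^Fin k]→L[ℝ] ℂ) :=
    Module.Finite.of_injective (evB b k) (evB_injective b)
  obtain ⟨L, hL⟩ := LinearMap.exists_leftInverse_of_injective (evB b k)
    (LinearMap.ker_eq_bot.mpr (evB_injective b))
  have h1 : ContDiffOn ℝ N (fun y => evB b k (F y)) s := by
    rw [contDiffOn_pi]
    intro t
    exact h _
  have h2 := (LinearMap.toContinuousLinearMap L).contDiff.comp_contDiffOn h1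
  refine h2.congr fun y _ => ?_
  have := LinearMap.congr_fun hL (F y)
  exact this.symm

theorem contDiffOn_apply {F : G → E [⋀^Fin k]→L[ℝ] ℂ} {u : Fin k → G → E} {s : Set G}
    (hF : ContDiffOn ℝ N F s) (hu : ∀ i, ContDiffOn ℝ N (u i) s) :
    ContDiffOn ℝ N (fun y => F y (fun i => u i y)) s := by
  let b := Module.finBasis ℝ E
  have h1 : ∀ y, F y (fun i => u i y) = ∑ r : Fin k → Fin (Module.finrank ℝ E),
      (∏ i, b.repr (u i y) (r i)) • F y (fun i => b (r i)) := by
    intro y
    have h2 : (fun i => u i y) = fun i => ∑ j, b.repr (u i y) j • b j := by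
      funext i
      rw [b.sum_repr]
    have h3 := (F y).toMultilinearMap.map_sum (fun i j => b.repr (u i y) j • b j)
    have h4 : ∀ v, (F y).toMultilinearMap v = F y v := fun _ => rfl
    rw [h4] at h3
    rw [h2, h3]
    apply Finset.sum_congr rfl
    intro r _
    rw [(F y).toMultilinearMap.map_smul_univ]
    rfl
  simp_rw [h1]
  apply ContDiffOn.sum
  intro r _
  have e1 : ContDiffOn ℝ N (fun y => ∏ i, b.repr (u i y) (r i)) s := by
    apply contDiffOn_prod
    intro i _
    have h5 : ContDiff ℝ N (fun x : E => b.repr x (r i)) :=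
      (LinearMap.toContinuousLinearMap (b.coord (r i))).contDiff
    exact h5.comp_contDiffOn (hu i)
  have e2 : ContDiffOn ℝ N (fun y => F y (fun i => b (r i))) s := by
    exact (ContinuousAlternatingMap.apply ℝ E ℂ (fun i => b (r i))).contDiff.comp_contDiffOn hF
  exact e1.smul e2

/-- pull-backs are smooth -/
theorem contDiffOn_pullback {E' : Type*} [NormedAddCommGroup E'] [NormedSpace ℝ E']
    [FiniteDimensional ℝ E'] {w : G → E [⋀^Fin k]→L[ℝ] ℂ}
    {L : G → E' →L[ℝ] E} {s : Set G} (hw : ContDiffOn ℝ N w s) (hL : ContDiffOn ℝ N L s) :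
    ContDiffOn ℝ N (fun y => (w y).compContinuousLinearMap (L y)) s := by
  apply contDiffOn_alt
  intro v
  have : (fun y => (w y).compContinuousLinearMap (L y) v) = fun y => w y (fun i => L y (v i)) := rfl
  rw [this]
  exact contDiffOn_apply hw fun i => hL.clm_apply contDiffOn_const

end Pool.Agent.H71.Fro
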