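import Mathlib
import Pool.Agent.H73.Fro.Defs
import Pool.Agent.H71.Fro.Smooth
import Pool.Agent.H71.Top.Transform

set_option autoImplicit false

/-!
# Linear algebra of forms of type `(0,k)` on `ℂⁿ`
-/

namespace Pool.Agent.H71.Fro

open Set Function Pool.Agent.H73.Fro
open scoped ComplexConjugate Topology

variable {n k : ℕ}

/-! ### Commuting projections -/

theorem proj_inj {V ι : Type*} [AddCommGroup V] [Module ℂ V] [DecidableEq ι] (Q : ι → V →ₗ[ℂ] V)
    (hc : ∀ i j x, Q i (Q j x) = Q j (Q i x)) (hi : ∀ i x, Q i (Q i x) = Q i x)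
    (s : Finset ι) : ∀ (c : ℕ) (x : V), ((c : ℂ) + 1) • x + ∑ i ∈ s, Q i x = 0 → x = 0 := by
  induction s using Finset.induction_on with
  | empty =>
    intro c x h
    rw [Finset.sum_empty, add_zero] at h
    rcases smul_eq_zero.mp h with h | h
    · exact absurd h (by exact_mod_cast Nat.succ_ne_zero c)
    · exact h
  | insert a s ha ih =>
    intro c x h
    rw [Finset.sum_insert ha] at h
    have h1 := congrArg (Q a) h
    rw [map_zero, map_add, map_smul, map_add, hi, map_sum] at h1
    have h2 : Q a x = 0 := by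
      apply ih (c + 1)
      rw [← h1, Finset.sum_congr rfl fun i _ => hc i a x]
      push_cast
      module
    apply ih c
    rw [h2, zero_add] at h
    exact h

theorem proj_zero {V ι : Type*} [AddCommGroup V] [Module ℂ V] [DecidableEq ι] [Fintype ι]
    (Q : ι → V →ₗ[ℂ] V)
    (hc : ∀ i j x, Q i (Q j x) = Q j (Q i x)) (hi : ∀ i x, Q i (Q i x) = Q i x) (x : V)
    (h : ∑ i, Q i x = 0) (a : ι) : Q a x = 0 := by
  apply proj_inj Q hc hi (Finset.univ.erase a) 0
  have h1 := congrArg (Q a) h
  rw [map_zero, map_sum, ← Finset.add_sum_erase _ _ (Finset.mem_univ a), hi] at h1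
  rw [← h1, Finset.sum_congr rfl fun i _ => hc i a x]
  push_cast
  module

/-! ### Multiplication by `i` in one argument -/

/-- multiplication by `i` -/
def mulI (n : ℕ) : Cn n →ₗ[ℝ] Cn n where
  toFun x := Complex.I • x
  map_add' x y := smul_add _ x y
  map_smul' c x := smul_comm _ c x

/-- multiplication of the `j`-th argument by `i` -/
noncomputable def Tj (j : Fin k) : MultilinearMap ℝ (fun _ : Fin k => Cn n) ℂ →ₗ[ℂ]
    MultilinearMap ℝ (fun _ : Fin k => Cn n) ℂ where
  toFun f := f.compLinearMap (update (fun _ => LinearMap.id) j (mulI n))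
  map_add' f g := rfl
  map_smul' c f := rfl

theorem Tj_apply (j : Fin k) (f : MultilinearMap ℝ (fun _ : Fin k => Cn n) ℂ)
    (v : Fin k → Cn n) : Tj j f v = f (update v j (Complex.I • v j)) := by
  have h1 : (fun i => (update (fun _ => LinearMap.id) j (mulI n) : Fin k → Cn n →ₗ[ℝ] Cn n) i (v i))
      = update v j (Complex.I • v j) := by
    funext i
    by_cases h : i = j
    · subst h
      rw [update_self, update_self]
      rfl
    · rw [update_of_ne h, update_of_ne h]
      rfl
  exact congrArg f h1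

theorem Tj_comm (i j : Fin k) (f : MultilinearMap ℝ (fun _ : Fin k => Cn n) ℂ) :
    Tj i (Tj j f) = Tj j (Tj i f) := by
  refine MultilinearMap.ext fun v => ?_
  rw [Tj_apply, Tj_apply, Tj_apply, Tj_apply]
  by_cases h : i = j
  · rw [h]
  · rw [update_of_ne (Ne.symm h), update_of_ne h, update_comm h]

theorem Tj_sq (j : Fin k) (f : MultilinearMap ℝ (fun _ : Fin k => Cn n) ℂ) :
    Tj j (Tj j f) = -f := by
  refine MultilinearMap.ext fun v => ?_
  rw [Tj_apply, Tj_apply, update_self, update_idem, smul_smul, Complex.I_mul_I, neg_one_smul,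
    neg_apply, f.map_update_neg, update_eq_self]

/-- the complementary projection -/
noncomputable def Qj (j : Fin k) : MultilinearMap ℝ (fun _ : Fin k => Cn n) ℂ →ₗ[ℂ]
    MultilinearMap ℝ (fun _ : Fin k => Cn n) ℂ :=
  (1 / 2 : ℂ) • (LinearMap.id - Complex.I • Tj j)

theorem Qj_apply (j : Fin k) (f : MultilinearMap ℝ (fun _ : Fin k => Cn n) ℂ) :
    Qj j f = (1 / 2 : ℂ) • (f - Complex.I • Tj j f) := rfl

theorem Qj_comm (i j : Fin k) (f : MultilinearMap ℝ (fun _ : Fin k => Cn n) ℂ) :
    Qj i (Qj j f) = Qj j (Qj i f) := by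
  simp only [Qj_apply, map_smul, map_sub, Tj_comm i j f]
  module

theorem Qj_idem (j : Fin k) (f : MultilinearMap ℝ (fun _ : Fin k => Cn n) ℂ) :
    Qj j (Qj j f) = Qj j f := by
  simp only [Qj_apply, map_smul, map_sub, Tj_sq]
  have : (Complex.I * Complex.I) = -1 := Complex.I_mul_I
  refine MultilinearMap.ext fun v => ?_
  simp only [smul_apply, sub_apply, neg_apply, smul_eq_mul]
  linear_combination ((1 / 4 : ℂ) * (-f v)) * this

/-! ### Forms of type `(0,k)` are antilinear in every argument -/

/-- antilinear in each argument -/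
def Anti (f : (Cn n) [⋀^Fin k]→L[ℝ] ℂ) : Prop :=
  ∀ (v : Fin k → Cn n) (i : Fin k) (c : ℂ) (x : Cn n),
    f (update v i (c • x)) = conj c * f (update v i x)

theorem sum_update_of_type {f : (Cn n) [⋀^Fin k]→L[ℝ] ℂ} (hf : IsType 0 k f)
    (v : Fin k → Cn n) :
    ∑ i, f (update v i (Complex.I • v i)) = -((k : ℂ) * Complex.I) * f v := by
  have h1 : HasDerivAt (fun t : ℝ => f (v + t • (fun i => Complex.I • v i)))
      (∑ i, f (update v i (Complex.I • v i))) 0 := by
    have e1 : HasDerivAt (fun t : ℝ => v + t • (fun i => Complex.I • v i))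
        (fun i => Complex.I • v i) 0 := by
      have := ((hasDerivAt_id (0 : ℝ)).smul_const (fun i => Complex.I • v i)).const_add v
      simpa using this
    have e2 := f.toContinuousMultilinearMap.hasFDerivAt
      (v + (0 : ℝ) • (fun i => Complex.I • v i))
    have e3 := e2.comp_hasDerivAt (0 : ℝ) e1
    have e4 : f.toContinuousMultilinearMap.linearDeriv (v + (0 : ℝ) • (fun i => Complex.I • v i))
        (fun i => Complex.I • v i) = ∑ i, f (update v i (Complex.I • v i)) := by
      rw [zero_smul, add_zero, ContinuousMultilinearMap.linearDeriv_apply]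
      rfl
    rw [e4] at e3
    exact e3
  have h2 : HasDerivAt (fun t : ℝ => (1 - (t : ℂ) * Complex.I) ^ k * f v)
      (-((k : ℂ) * Complex.I) * f v) 0 := by
    have e1 : HasDerivAt (fun t : ℝ => (1 - (t : ℂ) * Complex.I)) (-Complex.I) 0 := by
      have := ((Complex.ofRealCLM.hasDerivAt (x := (0 : ℝ))).mul_const Complex.I).const_sub 1
      simpa using this
    have e2 := (e1.pow k).mul_const (f v)
    refine e2.congr_deriv ?_
    simp
  have h3 : (fun t : ℝ => f (v + t • (fun i => Complex.I • v i))) =
      fun t : ℝ => (1 - (t : ℂ) * Complex.I) ^ k * f v := by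
    funext t
    have e1 := hf (1 + (t : ℂ) * Complex.I) v
    have e2 : (fun i => (1 + (t : ℂ) * Complex.I) • v i) =
        v + t • (fun i => Complex.I • v i) := by
      funext i
      rw [Pi.add_apply, Pi.smul_apply, add_smul, one_smul, mul_smul]
      rfl
    rw [e2] at e1
    rw [e1, pow_zero, one_mul]
    congr 2
    rw [map_add, map_one, map_mul, Complex.conj_ofReal, Complex.conj_I]
    ring
  rw [h3] at h1
  exact h1.unique h2

theorem isType_anti {f : (Cn n) [⋀^Fin k]→L[ℝ] ℂ} (hf : IsType 0 k f) : Anti f := by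
  set F : MultilinearMap ℝ (fun _ : Fin k => Cn n) ℂ := f.toAlternatingMap.toMultilinearMap
    with hF
  have hFv : ∀ v, F v = f v := fun _ => rfl
  have h1 : ∑ i, Tj i F = -((k : ℂ) * Complex.I) • F := by
    refine MultilinearMap.ext fun v => ?_
    rw [sum_apply, smul_apply, smul_eq_mul, hFv,
      ← sum_update_of_type hf v]
    exact Finset.sum_congr rfl fun i _ => Tj_apply i F v
  have h2 : ∑ i, Qj i F = 0 := by
    have e1 : ∑ i, Qj i F = (1 / 2 : ℂ) • ((k : ℂ) • F - Complex.I • ∑ i, Tj i F) := by
      simp_rw [Qj_apply]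
      rw [← Finset.smul_sum, Finset.sum_sub_distrib, Finset.smul_sum, Finset.sum_const,
        Finset.card_univ, Fintype.card_fin]
      congr 2
      exact (Nat.cast_smul_eq_nsmul ℂ k F).symm
    rw [e1, h1, smul_smul]
    have e2 : Complex.I * -((k : ℂ) * Complex.I) = k := by
      linear_combination (-(k : ℂ)) * Complex.I_mul_I
    rw [e2, sub_self, smul_zero]
  have h3 : ∀ a, Qj a F = 0 := proj_zero Qj Qj_comm Qj_idem F h2
  have h4 : ∀ (a : Fin k) (v : Fin k → Cn n), f (update v a (Complex.I • v a)) =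
      -Complex.I * f v := by
    intro a v
    have e1 := congrArg (fun G : MultilinearMap ℝ (fun _ : Fin k => Cn n) ℂ => G v) (h3 a)
    simp only [Qj_apply, smul_apply, sub_apply, Tj_apply, hFv, zero_apply, smul_eq_mul] at e1
    linear_combination (2 * Complex.I) * e1 +
      (f (update v a (Complex.I • v a))) * Complex.I_mul_I
  intro v i c x
  have e1 : c • x = c.re • x + c.im • (Complex.I • x) := by
    conv_lhs => rw [← Complex.re_add_im c]
    rw [add_smul, mul_smul]
    rfl
  have e2 := h4 i (update v i x)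
  rw [update_self, update_idem] at e2
  have e3 : f (update v i (c.re • x + c.im • (Complex.I • x))) =
      (c.re : ℂ) * f (update v i x) + (c.im : ℂ) * f (update v i (Complex.I • x)) := by
    have g1 := f.toAlternatingMap.map_update_add v i (c.re • x) (c.im • (Complex.I • x))
    have g2 := f.toAlternatingMap.map_update_smul v i c.re x
    have g3 := f.toAlternatingMap.map_update_smul v i c.im (Complex.I • x)
    rw [g2, g3] at g1
    exact g1
  rw [e1, e3, e2]
  have e4 : conj c = (c.re : ℂ) - (c.im : ℂ) * Complex.I := by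
    apply Complex.ext <;> simp
  rw [e4]
  ring

/-- the complex conjugate of a form antilinear in each argument -/
noncomputable def conjA {f : (Cn n) [⋀^Fin k]→L[ℝ] ℂ} (hf : Anti f) :
    (Cn n) [⋀^Fin k]→ₗ[ℂ] ℂ where
  toFun v := conj (f v)
  map_update_add' := by
    intro inst v i x y
    have e : inst = instDecidableEqFin k := Subsingleton.elim _ _
    subst e
    rw [← map_add]
    exact congrArg _ (f.toAlternatingMap.map_update_add v i x y)
  map_update_smul' := by
    intro inst v i c x
    have e : inst = instDecidableEqFin k := Subsingleton.elim _ _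
    subst e
    rw [hf v i c x, map_mul, Complex.conj_conj, smul_eq_mul]
  map_eq_zero_of_eq' := by
    intro v i j h hij
    have := f.toAlternatingMap.map_eq_zero_of_eq v h hij
    show conj (f v) = 0
    rw [show f v = 0 from this, map_zero]

theorem conjA_apply {f : (Cn n) [⋀^Fin k]→L[ℝ] ℂ} (hf : Anti f) (v : Fin k → Cn n) :
    conjA hf v = conj (f v) := rfl

theorem anti_isType {f : (Cn n) [⋀^Fin k]→L[ℝ] ℂ} (hf : Anti f) : IsType 0 k f := by
  intro c v
  have h1 := (conjA hf).toMultilinearMap.map_smul_univ (fun _ => c) v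
  have h2 : conj (f fun i => c • v i) = (∏ _i : Fin k, c) • conj (f v) := h1
  have h3 := congrArg conj h2
  rw [Complex.conj_conj, Finset.prod_const, Finset.card_univ, Fintype.card_fin, smul_eq_mul,
    map_mul, Complex.conj_conj, map_pow] at h3
  rw [h3, pow_zero, one_mul]

/-- more arguments than the dimension -/
theorem anti_zero {f : (Cn n) [⋀^Fin k]→L[ℝ] ℂ} (hf : Anti f) (hk : n < k) : f = 0 := by
  ext v
  have h1 : ¬ LinearIndependent ℂ v := by
    intro h
    have := h.fintype_card_le_finrank
    rw [Fintype.card_fin, Module.finrank_fin_fun] at this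
    omega
  have h2 := (conjA hf).map_linearDependent v h1
  rw [conjA_apply] at h2
  have h3 := congrArg conj h2
  rw [Complex.conj_conj, map_zero] at h3
  exact h3

/-! ### The form `d\bar z_1 ∧ ... ∧ d\bar z_n` -/

/-- the standard basis -/
def std (n : ℕ) (i : Fin n) : Cn n := Pi.single i 1

/-- the conjugate of the determinant -/
noncomputable def Dbar (n : ℕ) : (Cn n) [⋀^Fin n]→L[ℝ] ℂ where
  toFun v := conj (Matrix.detRowAlternating (R := ℂ) (n := Fin n) v)
  map_update_add' := by
    intro inst v i x y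
    have e : inst = instDecidableEqFin n := Subsingleton.elim _ _
    subst e
    rw [← map_add]
    exact congrArg _ (Matrix.detRowAlternating.map_update_add v i x y)
  map_update_smul' := by
    intro inst v i c x
    have e : inst = instDecidableEqFin n := Subsingleton.elim _ _
    subst e
    have h1 : c • x = (c : ℂ) • x := rfl
    rw [h1, Matrix.detRowAlternating.map_update_smul v i (c : ℂ) x, smul_eq_mul, map_mul,
      Complex.conj_ofReal]
    rfl
  map_eq_zero_of_eq' := by
    intro v i j h hij
    show conj (Matrix.detRowAlternating v) = 0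
    rw [Matrix.detRowAlternating.map_eq_zero_of_eq v h hij, map_zero]
  cont := by
    have h1 : Continuous fun v : Fin n → Cn n => (Matrix.of v).det :=
      Continuous.matrix_det (by
        apply continuous_matrix
        intro i j
        exact (continuous_apply j).comp (continuous_apply i))
    exact Complex.continuous_conj.comp h1

theorem Dbar_apply (v : Fin n → Cn n) :
    Dbar n v = conj (Matrix.detRowAlternating (R := ℂ) (n := Fin n) v) := rfl

theorem Dbar_anti : Anti (Dbar n) := by
  intro v i c x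
  rw [Dbar_apply, Dbar_apply, Matrix.detRowAlternating.map_update_smul v i c x, smul_eq_mul,
    map_mul]

theorem Dbar_std : Dbar n (std n) = 1 := by
  rw [Dbar_apply]
  have h : Matrix.detRowAlternating (R := ℂ) (n := Fin n) (std n) =
      (1 : Matrix (Fin n) (Fin n) ℂ).det := by
    congr 1
    funext i j
    show (Pi.single i (1 : ℂ) : Fin n → ℂ) j = (1 : Matrix (Fin n) (Fin n) ℂ) i j
    rw [Matrix.one_apply, Pi.single_apply]
    simp only [eq_comm]
  rw [h, Matrix.det_one, map_one]

/-- the coefficient -/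
noncomputable def cf (f : (Cn n) [⋀^Fin n]→L[ℝ] ℂ) : ℂ := f (std n)

theorem anti_eq {f : (Cn n) [⋀^Fin n]→L[ℝ] ℂ} (hf : Anti f) : f = cf f • Dbar n := by
  ext v
  have h1 := (conjA hf).eq_smul_basis_det (Pi.basisFun ℂ (Fin n))
  have h2 := congrArg (fun g : (Cn n) [⋀^Fin n]→ₗ[ℂ] ℂ => conj (g v)) h1
  simp only [AlternatingMap.smul_apply, conjA_apply, Complex.conj_conj, smul_eq_mul, map_mul] at h2
  rw [h2, ContinuousAlternatingMap.smul_apply, smul_eq_mul, Dbar_apply, Pi.basisFun_det]
  have h3 : (⇑(Pi.basisFun ℂ (Fin n))) = std n := by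
    funext i
    rw [Pi.basisFun_apply]
    rfl
  rw [h3]
  rfl

theorem type_eq {f : (Cn n) [⋀^Fin n]→L[ℝ] ℂ} (hf : IsType 0 n f) : f = cf f • Dbar n :=
  anti_eq (isType_anti hf)

theorem cf_Dbar (c : ℂ) : cf (c • Dbar n) = c := by
  unfold cf
  rw [ContinuousAlternatingMap.smul_apply, Dbar_std, smul_eq_mul, mul_one]

theorem isType_smul {p q : ℕ} {f : (Cn n) [⋀^Fin k]→L[ℝ] ℂ} (hf : IsType p q f) (c : ℂ) :
    IsType p q (c • f) := by
  intro a v
  rw [ContinuousAlternatingMap.smul_apply, ContinuousAlternatingMap.smul_apply, hf a v,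
    smul_eq_mul, smul_eq_mul]
  ring

theorem isType_zero {p q : ℕ} : IsType p q (0 : (Cn n) [⋀^Fin k]→L[ℝ] ℂ) := by
  intro a v
  simp

theorem isType_comp {p q : ℕ} {f : (Cn n) [⋀^Fin k]→L[ℝ] ℂ} (hf : IsType p q f)
    (L : Cn n →L[ℂ] Cn n) : IsType p q (f.compContinuousLinearMap (L.restrictScalars ℝ)) := by
  intro a v
  have h := hf a (fun i => L (v i))
  have e1 : (f.compContinuousLinearMap (L.restrictScalars ℝ)) (fun i => a • v i) =
      f (fun i => L (a • v i)) := rfl
  rw [e1]
  simp only [map_smul]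
  exact h

theorem cf_comp (L : Cn n →L[ℂ] Cn n) (c : ℂ) :
    cf ((c • Dbar n).compContinuousLinearMap (L.restrictScalars ℝ)) = c * conj L.det := by
  have h1 := (Pi.basisFun ℂ (Fin n)).det_comp (L : Cn n →ₗ[ℂ] Cn n) (std n)
  rw [Pi.basisFun_det] at h1
  have e1 : cf ((c • Dbar n).compContinuousLinearMap (L.restrictScalars ℝ)) =
      c * conj (Matrix.detRowAlternating ((L : Cn n →ₗ[ℂ] Cn n) ∘ std n)) := rfl
  rw [e1, h1, map_mul]
  have h2 : conj (Matrix.detRowAlternating (R := ℂ) (n := Fin n) (std n)) = 1 := Dbar_std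
  rw [h2, mul_one]

end Pool.Agent.H71.Fro
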