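import Pool.Agent.H71.Fro.Pair
import Pool.Agent.H71.Fro.Cov

set_option autoImplicit false

/-!
# Localisation of `(0,n)`-forms
-/

namespace Pool.Agent.H71.Fro

open Set Function Pool.Agent.H73.Fro MeasureTheory Pool.Agent.H71.Top
open scoped Manifold ContDiff ComplexConjugate Topology

section Local

variable {n : ℕ} {X : Type*} [TopologicalSpace X] [ChartedSpace (Cn n) X]

/-- a function smooth on the target and vanishing off a compact set gives an element of `C0` -/
theorem mkC0 (e : atlas (Cn n) X) {F : Cn n → ℂ} (hF : ContDiffOn ℝ ∞ F e.1.target)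
    {K : Set (Cn n)} (hK : IsCompact K) (hKe : K ⊆ e.1.target)
    (h0 : ∀ z ∈ e.1.target, z ∉ K → F z = 0) : e.1.target.indicator F ∈ C0 e := by
  refine ⟨?_, K, hK, hKe, fun y hy => ?_⟩
  · rw [contDiff_iff_contDiffAt]
    intro y
    by_cases hy : y ∈ e.1.target
    · have h1 : e.1.target.indicator F =ᶠ[𝓝 y] F := by
        filter_upwards [e.1.open_target.mem_nhds hy] with z hz
        exact indicator_of_mem hz _
      exact (hF.contDiffAt (e.1.open_target.mem_nhds hy)).congr_of_eventuallyEq h1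
    · have h1 : e.1.target.indicator F =ᶠ[𝓝 y] fun _ => 0 := by
        have hyK : y ∉ K := fun h => hy (hKe h)
        filter_upwards [hK.isClosed.isOpen_compl.mem_nhds hyK] with z hz
        by_cases hz2 : z ∈ e.1.target
        · rw [indicator_of_mem hz2, h0 z hz2 hz]
        · exact indicator_of_notMem hz2 _
      exact contDiffAt_const.congr_of_eventuallyEq h1
  · by_cases hy2 : y ∈ e.1.target
    · rw [indicator_of_mem hy2, h0 y hy2 hy]
    · exact indicator_of_notMem hy2 _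

theorem C0_hcs {e : atlas (Cn n) X} (u : C0 e) : HasCompactSupport u.1 := by
  obtain ⟨h1, K, h2, h3, h4⟩ := u.2
  exact HasCompactSupport.intro h2 h4

theorem C0_zero {e : atlas (Cn n) X} (u : C0 e) {y : Cn n} (hy : y ∉ e.1.target) : u.1 y = 0 := by
  obtain ⟨h1, K, h2, h3, h4⟩ := u.2
  exact h4 y fun h => hy (h3 h)

/-- product of a smooth function on the target and an element of `C0` -/
theorem mulC0 (e : atlas (Cn n) X) {F : Cn n → ℂ} (hF : ContDiffOn ℝ ∞ F e.1.target)
    (u : C0 e) : (fun z => F z * u.1 z) ∈ C0 e := by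
  obtain ⟨h1, K, h2, h3, h4⟩ := u.2
  have h5 := mkC0 e (F := fun z => F z * u.1 z) (hF.mul h1.contDiffOn) h2 h3
    (fun z _ hz => by rw [h4 z hz, mul_zero])
  have h6 : e.1.target.indicator (fun z => F z * u.1 z) = fun z => F z * u.1 z := by
    funext z
    by_cases hz : z ∈ e.1.target
    · rw [indicator_of_mem hz]
    · rw [indicator_of_notMem hz, C0_zero u hz, mul_zero]
  rwa [h6] at h5

theorem C0_integrable {e : atlas (Cn n) X} (u : C0 e) : Integrable u.1 :=
  u.2.1.continuous.integrable_of_hasCompactSupport (C0_hcs u)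

theorem dbar_contDiff (j : Fin n) {u : Cn n → ℂ} (hu : ContDiff ℝ ∞ u) :
    ContDiff ℝ ∞ (dbar j u) := by
  unfold dbar
  have h1 : ContDiff ℝ ∞ (fderiv ℝ u) := hu.fderiv_right (by simp)
  exact contDiff_const.mul ((h1.clm_apply contDiff_const).add
    (contDiff_const.mul (h1.clm_apply contDiff_const)))

theorem dbar_ev (j : Fin n) {u : Cn n → ℂ} {y : Cn n} (hu : u =ᶠ[𝓝 y] fun _ => 0) :
    dbar j u y = 0 := by
  unfold dbar
  rw [hu.fderiv_eq]
  simp

/-- `dbar j` on `C0` -/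
noncomputable def dC0 (e : atlas (Cn n) X) (j : Fin n) (u : C0 e) : C0 e :=
  ⟨dbar j u.1, by
    obtain ⟨h1, K, h2, h3, h4⟩ := u.2
    refine ⟨dbar_contDiff j h1, K, h2, h3, fun y hy => dbar_ev j ?_⟩
    filter_upwards [h2.isClosed.isOpen_compl.mem_nhds hy] with z hz
    exact h4 z hz⟩

theorem dbar_integral_zero {e : atlas (Cn n) X} (j : Fin n) (u : C0 e) :
    ∫ z, dbar j u.1 z = 0 := by
  have h1 : ∀ v : Cn n, Integrable fun z => fderiv ℝ u.1 z v := by
    intro v
    exact ((u.2.1.continuous_fderiv (by simp)).clm_apply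
      continuous_const).integrable_of_hasCompactSupport ((C0_hcs u).fderiv_apply (𝕜 := ℝ) v)
  unfold dbar
  rw [integral_const_mul, integral_add (h1 _) ((h1 _).const_mul _), integral_const_mul,
    integral_fderiv_zero u.2.1 (C0_hcs u), integral_fderiv_zero u.2.1 (C0_hcs u)]
  ring

variable (X) in
/-- forms of type `(0,n)` -/
noncomputable abbrev A0 (n : ℕ) [ChartedSpace (Cn n) X] : Submodule ℂ (Form n X n) := Apq n X 0 n n

theorem cf_contDiffOn (f : Form n X n) (e : atlas (Cn n) X) :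
    ContDiffOn ℝ ∞ (fun z => cf (f.1 e z)) e.1.target :=
  contDiffOn_apply (u := fun i _ => std n i) (form_smooth f e) fun _ => contDiffOn_const

theorem cf_off (f : Form n X n) (e : atlas (Cn n) X) {z : Cn n} (hz : z ∉ e.1.target) :
    cf (f.1 e z) = 0 := by
  rw [form_zero_off f e hz]
  rfl

theorem A0_eq (f : A0 X n) (e : atlas (Cn n) X) (z : Cn n) :
    f.1.1 e z = cf (f.1.1 e z) • Dbar n := type_eq (f.2 e z)

variable [IsManifold 𝓘(ℂ, Cn n) ω X] [T2Space X]

/-- extension by zero as a linear map into the `(0,n)`-forms -/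
noncomputable def exA (e : atlas (Cn n) X) : C0 e →ₗ[ℂ] A0 X n :=
  (extS e).codRestrict _ (extS_type e)

theorem exA_coe (e : atlas (Cn n) X) (u : C0 e) : (exA e u).1 = extS e u := rfl

end Local

section Bsub

variable {k : ℕ} {X : Type*} [TopologicalSpace X] [ChartedSpace (Cn (k + 1)) X]

theorem tD_type {n k : ℕ} {X : Type*} [TopologicalSpace X] [ChartedSpace (Cn n) X]
    (e : atlas (Cn n) X) {D : (Cn n) [⋀^Fin k]→L[ℝ] ℂ} {p q : ℕ}
    (hD : IsType p q D) (u : C0 e) (y : Cn n) : IsType p q ((tD e D u).1 y) := by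
  rw [tD_apply]
  exact isType_smul hD _

theorem sub_tD_type (e : atlas (Cn (k + 1)) X) (j : Fin (k + 1)) (v : C0 e) (y : Cn (k + 1)) :
    IsType 1 k ((tD e (Dbar (k + 1)) (dC0 e j v) + (-1 : ℂ) • dCS e (tD e (Dj j) v)).1 y) := by
  have h3 : (tD e (Dbar (k + 1)) (dC0 e j v) + (-1 : ℂ) • dCS e (tD e (Dj j) v)).1 y =
    dbar j v.1 y • Dbar (k + 1) + (-1 : ℂ) • extDeriv (fun z => v.1 z • Dj j) y := rfl
  rw [h3]
  have h2 : dbar j v.1 y • Dbar (k + 1) + (-1 : ℂ) • extDeriv (fun z => v.1 z • Dj j) y =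
      (-1 : ℂ) • (extDeriv (fun z => v.1 z • Dj j) y - dbar j v.1 y • Dbar (k + 1)) := by
    module
  rw [h2]
  exact isType_smul (extDeriv_Dj ((v.2.1.differentiable (by simp)) y) j) _

theorem add_sub_tD (e : atlas (Cn (k + 1)) X) (j : Fin (k + 1)) (v : C0 e) :
    dCS e (tD e (Dj j) v) + (tD e (Dbar (k + 1)) (dC0 e j v) +
      (-1 : ℂ) • dCS e (tD e (Dj j) v)) = tD e (Dbar (k + 1)) (dC0 e j v) := by
  module

variable [IsManifold 𝓘(ℂ, Cn (k + 1)) ω X]

variable (k X) in
/-- the `dbar`-exact forms of type `(0,n)` -/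
noncomputable def Bx : Submodule ℂ (A0 X (k + 1)) where
  carrier := {f | ∃ g ∈ Apq (k + 1) X 0 k k, ∃ h ∈ Apq (k + 1) X 1 k (k + 1),
    f.1 = extD (k + 1) X k g + h}
  add_mem' := by
    rintro f f' ⟨g, hg, h, hh, e⟩ ⟨g', hg', h', hh', e'⟩
    refine ⟨g + g', add_mem hg hg', h + h', add_mem hh hh', ?_⟩
    rw [map_add, Submodule.coe_add, e, e']
    abel
  zero_mem' := ⟨0, zero_mem _, 0, zero_mem _, by
    rw [map_zero, add_zero]
    rfl⟩
  smul_mem' := by
    rintro c f ⟨g, hg, h, hh, e⟩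
    refine ⟨c • g, Submodule.smul_mem _ _ hg, c • h, Submodule.smul_mem _ _ hh, ?_⟩
    rw [map_smul, Submodule.coe_smul, e]
    exact smul_add c _ _

theorem exA_dbar [T2Space X] (e : atlas (Cn (k + 1)) X) (j : Fin (k + 1)) (v : C0 e) :
    exA e (dC0 e j v) ∈ Bx k X := by
  refine ⟨ext e (tD e (Dj j) v), ext_type e _ (tD_type e (Dj_type j) v),
    ext e (tD e (Dbar (k + 1)) (dC0 e j v) + (-1 : ℂ) • dCS e (tD e (Dj j) v)),
    ext_type e _ (sub_tD_type e j v), ?_⟩
  have h := (ext e).map_add (dCS e (tD e (Dj j) v)) (tD e (Dbar (k + 1)) (dC0 e j v) +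
    (-1 : ℂ) • dCS e (tD e (Dj j) v))
  rw [add_sub_tD] at h
  rw [extD_ext]
  exact h

end Bsub

end Pool.Agent.H71.Fro
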