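import Pool.Agent.H71.Fro.Ext

set_option autoImplicit false

/-!
# Change of charts for the pairing of `(n,0)`- and `(0,n)`-forms
-/

namespace Pool.Agent.H71.Fro

open Set Function Pool.Agent.H73.Fro MeasureTheory
open scoped Manifold ContDiff ComplexConjugate Topology

variable {n : ℕ} {X : Type*} [TopologicalSpace X] [ChartedSpace (Cn n) X]

/-- the complex conjugate of a compactly supported function -/
noncomputable def cj (e : atlas (Cn n) X) (u : C0 e) : C0 e :=
  ⟨fun y => conj (u.1 y), by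
    obtain ⟨h1, K, h2, h3, h4⟩ := u.2
    refine ⟨Complex.conjCLE.contDiff.comp h1, K, h2, h3, fun y hy => ?_⟩
    show conj (u.1 y) = 0
    rw [h4 y hy, map_zero]⟩

theorem cj_apply (e : atlas (Cn n) X) (u : C0 e) (y : Cn n) : (cj e u).1 y = conj (u.1 y) := rfl

theorem tr_inv (e e' : atlas (Cn n) X) {y : Cn n} (hy : y ∈ dom e e') :
    tr e e' y ∈ dom e' e ∧ tr e' e (tr e e' y) = y := by
  refine ⟨⟨e'.1.map_source hy.2, ?_⟩, ?_⟩
  · unfold tr
    rw [e'.1.left_inv hy.2]
    exact e.1.map_target hy.1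
  · unfold tr
    rw [e'.1.left_inv hy.2, e.1.right_inv hy.1]

variable [IsManifold 𝓘(ℂ, Cn n) ω X]

theorem det_tr (e e' : atlas (Cn n) X) {y : Cn n} (hy : y ∈ dom e e') :
    (fderiv ℂ (tr e' e) (tr e e' y)).det * (fderiv ℂ (tr e e') y).det = 1 := by
  have h1 : DifferentiableAt ℂ (tr e e') y := (tr_contDiffAt e e' hy).differentiableAt (by simp)
  have h2 : DifferentiableAt ℂ (tr e' e) (tr e e' y) :=
    (tr_contDiffAt e' e (tr_inv e e' hy).1).differentiableAt (by simp)
  have h3 : (fderiv ℂ (tr e' e) (tr e e' y)).comp (fderiv ℂ (tr e e') y) =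
      ContinuousLinearMap.id ℂ (Cn n) := by
    rw [← fderiv_comp y h2 h1]
    have h4 : (tr e' e) ∘ (tr e e') =ᶠ[𝓝 y] id := by
      filter_upwards [(isOpen_dom e e').mem_nhds hy] with z hz
      exact (tr_inv e e' hz).2
    rw [h4.fderiv_eq]
    exact fderiv_id
  have h5 : ∀ A B : Cn n →L[ℂ] Cn n, A.det * B.det = (A.comp B).det := by
    intro A B
    exact (LinearMap.det_comp (A : Cn n →ₗ[ℂ] Cn n) (B : Cn n →ₗ[ℂ] Cn n)).symm
  rw [h5, h3]
  exact LinearMap.det_id

theorem abs_det_tr (e e' : atlas (Cn n) X) {y : Cn n} (hy : y ∈ dom e e') :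
    |(fderiv ℝ (tr e e') y).det| = Complex.normSq (fderiv ℂ (tr e e') y).det := by
  have h : (fderiv ℝ (tr e e') y).det =
      LinearMap.det ((fderiv ℂ (tr e e') y : Cn n →ₗ[ℂ] Cn n).restrictScalars ℝ) := by
    rw [fderiv_tr e e' hy]
    rfl
  rw [h, LinearMap.det_restrictScalars, Algebra.norm_complex_apply,
    abs_of_nonneg (Complex.normSq_nonneg _)]

/-- change of variables between two charts -/
theorem integral_change (e e' : atlas (Cn n) X) {G : Cn n → ℂ} (hG : ∀ z ∉ dom e' e, G z = 0) :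
    ∫ z, G z = ∫ y in dom e e',
      (Complex.normSq (fderiv ℂ (tr e e') y).det : ℂ) * G (tr e e' y) := by
  have himg : (tr e e') '' (dom e e') = dom e' e := by
    ext z
    constructor
    · rintro ⟨y, hy, rfl⟩
      exact (tr_inv e e' hy).1
    · intro hz
      exact ⟨tr e' e z, (tr_inv e' e hz).1, (tr_inv e' e hz).2⟩
  have hinj : InjOn (tr e e') (dom e e') := by
    intro y hy y' hy' h
    rw [← (tr_inv e e' hy).2, ← (tr_inv e e' hy').2, h]
  rw [← setIntegral_eq_integral_of_forall_compl_eq_zero (s := dom e' e) hG, ← himg,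
    integral_image_eq_integral_abs_det_fderiv_smul volume (isOpen_dom e e').measurableSet
      (fun y hy => ((tr_diff e e' hy).hasFDerivAt).hasFDerivWithinAt) hinj]
  refine setIntegral_congr_fun (isOpen_dom e e').measurableSet fun y hy => ?_
  show |(fderiv ℝ (tr e e') y).det| • G (tr e e' y) = _
  rw [abs_det_tr e e' hy]
  rfl

variable [T2Space X]

theorem pairing (e e' : atlas (Cn n) X) (φ : C0 e) (u : C0 e') :
    ∫ y, φ.1 y * cf ((extS e' u).1 e y) =
      ∫ z, conj (cf ((extS e (cj e φ)).1 e' z)) * u.1 z := by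
  have h1 : ∀ z ∉ dom e' e, conj (cf ((extS e (cj e φ)).1 e' z)) * u.1 z = 0 := by
    intro z hz
    rw [cf_extS_zero e _ e' hz, map_zero, zero_mul]
  rw [integral_change e e' h1]
  have h2 : ∀ y ∉ dom e e', φ.1 y * cf ((extS e' u).1 e y) = 0 := by
    intro y hy
    rw [cf_extS_zero e' _ e hy, mul_zero]
  rw [← setIntegral_eq_integral_of_forall_compl_eq_zero (s := dom e e') h2]
  refine setIntegral_congr_fun (isOpen_dom e e').measurableSet fun y hy => ?_
  obtain ⟨g1, g2⟩ := tr_inv e e' hy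
  have g3 := det_tr e e' hy
  show φ.1 y * cf ((extS e' u).1 e y) = (Complex.normSq (fderiv ℂ (tr e e') y).det : ℂ) *
    (conj (cf ((extS e (cj e φ)).1 e' (tr e e' y))) * u.1 (tr e e' y))
  rw [cf_extS e' u e hy, cf_extS e _ e' g1, g2, cj_apply, map_mul, Complex.conj_conj,
    Complex.conj_conj, ← Complex.mul_conj]
  linear_combination (-(φ.1 y * u.1 (tr e e' y) * conj (fderiv ℂ (tr e e') y).det)) * g3

end Pool.Agent.H71.Fro
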