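import Pool.Agent.H71.Fro.Dual

set_option autoImplicit false

/-!
# Top degree Serre duality on a compact complex manifold
-/

namespace Pool.Agent.H71.Fro

open Set Function Pool.Agent.H73.Fro MeasureTheory Pool.Agent.H71.Top Metric
open scoped Manifold ContDiff ComplexConjugate Topology

/-! ### Scalar lemmas in a chart -/

section Local

variable {n : ℕ} {X : Type*} [TopologicalSpace X] [ChartedSpace (Cn n) X]

/-- integration by parts -/
theorem by_parts (e : atlas (Cn n) X) (j : Fin n) {H : Cn n → ℂ}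
    (hH : ContDiffOn ℝ ∞ H e.1.target) (v : C0 e)
    (hd : ContDiffOn ℝ ∞ (dbar j H) e.1.target) :
    ∫ z, dbar j H z * v.1 z = -∫ z, H z * dbar j v.1 z := by
  have h1 : ∀ z, dbar j (fun z => H z * v.1 z) z = dbar j H z * v.1 z + H z * dbar j v.1 z := by
    intro z
    by_cases hz : z ∈ e.1.target
    · exact dbar_mul j ((hH.contDiffAt (e.1.open_target.mem_nhds hz)).differentiableAt (by simp))
        (v.2.1.differentiable (by simp) z)
    · obtain ⟨h1, K, h2, h3, h4⟩ := v.2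
      have hev : v.1 =ᶠ[𝓝 z] fun _ => 0 := by
        filter_upwards [h2.isClosed.isOpen_compl.mem_nhds fun h => hz (h3 h)] with x hx
        exact h4 x hx
      have hev2 : (fun z => H z * v.1 z) =ᶠ[𝓝 z] fun _ => 0 := by
        filter_upwards [hev] with x hx
        rw [hx, mul_zero]
      rw [dbar_ev j hev2, dbar_ev j hev, C0_zero v hz, mul_zero, mul_zero, add_zero]
  have h2 := dbar_integral_zero j (⟨_, mulC0 e hH v⟩ : C0 e)
  have h3 : (fun z => dbar j (fun z => H z * v.1 z) z) =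
      fun z => dbar j H z * v.1 z + H z * dbar j v.1 z := funext h1
  have h4 : ∫ z, (dbar j H z * v.1 z + H z * dbar j v.1 z) = 0 := by
    rw [← h3]
    exact h2
  have h5 : ∫ z, (dbar j H z * v.1 z + H z * dbar j v.1 z) =
      (∫ z, dbar j H z * v.1 z) + ∫ z, H z * dbar j v.1 z :=
    integral_add (C0_integrable (⟨_, mulC0 e hd v⟩ : C0 e))
      (C0_integrable (⟨_, mulC0 e hH (dC0 e j v)⟩ : C0 e))
  rw [h5] at h4
  exact eq_neg_of_add_eq_zero_left h4

theorem dbar_contDiffOn (j : Fin n) {H : Cn n → ℂ} {s : Set (Cn n)} (hs : IsOpen s)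
    (hH : ContDiffOn ℝ ∞ H s) : ContDiffOn ℝ ∞ (dbar j H) s := by
  unfold dbar
  have h1 : ContDiffOn ℝ ∞ (fderiv ℝ H) s := hH.fderiv_of_isOpen hs (by simp)
  exact contDiffOn_const.mul ((h1.clm_apply contDiffOn_const).add
    (contDiffOn_const.mul (h1.clm_apply contDiffOn_const)))

/-- a nonnegative density with zero integral vanishes -/
theorem sq_zero (e : atlas (Cn n) X) {H : Cn n → ℂ} (hH : ContDiffOn ℝ ∞ H e.1.target)
    (u : C0 e) (hu : ∀ z, 0 ≤ (H z * u.1 z).re) (h0 : (∫ z, H z * u.1 z).re = 0) (z : Cn n) :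
    (H z * u.1 z).re = 0 := by
  by_contra hne
  let w : C0 e := ⟨_, mulC0 e hH u⟩
  have h1 : 0 < ∫ z, (w.1 z).re := by
    refine Continuous.integral_pos_of_hasCompactSupport_nonneg_nonzero (x := z) ?_ ?_ hu hne
    · exact Complex.continuous_re.comp w.2.1.continuous
    · exact (C0_hcs w).comp_left (g := Complex.re) Complex.zero_re
  have h2 : ∫ z, (w.1 z).re = (∫ z, w.1 z).re := Complex.reCLM.integral_comp_comm (C0_integrable w)
  rw [h2] at h1
  have h3 : (∫ z, w.1 z).re = 0 := h0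
  rw [h3] at h1
  exact lt_irrefl _ h1

/-- the fundamental lemma of the calculus of variations -/
theorem fund (e : atlas (Cn n) X) {H : Cn n → ℂ} (hH : ContDiffOn ℝ ∞ H e.1.target)
    (h : ∀ u : C0 e, ∫ z, H z * u.1 z = 0) {z : Cn n} (hz : z ∈ e.1.target) : H z = 0 := by
  classical
  obtain ⟨ε, hε, hb⟩ := Metric.isOpen_iff.mp e.1.open_target z hz
  let ρ : ContDiffBump z := ⟨ε / 4, ε / 2, by positivity, by linarith⟩
  have hρ1 : ρ z = 1 := ρ.one_of_mem_closedBall (mem_closedBall_self (by positivity))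
  have hρ0 : ∀ x ∉ closedBall z (ε / 2), ρ x = 0 := by
    intro x hx
    apply ρ.zero_of_le_dist
    rw [mem_closedBall, not_le] at hx
    exact hx.le
  have hsub : closedBall z (ε / 2) ⊆ e.1.target := fun x hx => hb (by
    rw [mem_closedBall] at hx
    rw [Metric.mem_ball]
    linarith)
  have hρs : ContDiff ℝ ∞ (fun x => ((ρ x : ℝ) : ℂ)) := Complex.ofRealCLM.contDiff.comp ρ.contDiff
  have hF : ContDiffOn ℝ ∞ (fun x => ((ρ x : ℝ) : ℂ) * conj (H x)) e.1.target :=
    hρs.contDiffOn.mul (Complex.conjCLE.contDiff.comp_contDiffOn hH)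
  let u : C0 e := ⟨_, mkC0 e hF (isCompact_closedBall z (ε / 2)) hsub (fun x _ hx => by
    rw [hρ0 x hx]
    simp)⟩
  have hu : ∀ x, H x * u.1 x = (((if x ∈ e.1.target then ρ x * Complex.normSq (H x) else 0) : ℝ) :
      ℂ) := by
    intro x
    by_cases hx : x ∈ e.1.target
    · have e1 : u.1 x = ((ρ x : ℝ) : ℂ) * conj (H x) :=
        indicator_of_mem hx (fun x => ((ρ x : ℝ) : ℂ) * conj (H x))
      rw [e1, if_pos hx, mul_left_comm, Complex.mul_conj]
      push_cast
      ring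
    · have e1 : u.1 x = 0 := indicator_of_notMem hx (fun x => ((ρ x : ℝ) : ℂ) * conj (H x))
      rw [e1, if_neg hx, mul_zero]
      simp
  have h1 := sq_zero e hH u (fun x => by
    rw [hu x, Complex.ofReal_re]
    split_ifs
    · exact mul_nonneg ρ.nonneg (Complex.normSq_nonneg _)
    · exact le_rfl) (by rw [h u]; rfl) z
  rw [hu z, Complex.ofReal_re, if_pos hz, hρ1, one_mul] at h1
  exact Complex.normSq_eq_zero.mp h1

end Local

noncomputable instance instA0 {n : ℕ} {X : Type*} [TopologicalSpace X] [ChartedSpace (Cn n) X] :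
    AddCommGroup (A0 X n) := Module.addCommMonoidToAddCommGroup ℂ

section Main

variable {k : ℕ} {X : Type*} [TopologicalSpace X] [ChartedSpace (Cn (k + 1)) X]
  [IsManifold 𝓘(ℂ, Cn (k + 1)) ω X] [T2Space X]

/-- linear functionals vanishing on `dbar`-exact forms are given by smooth densities -/
theorem functional (K : Cov (k + 1) X) (lam : A0 X (k + 1) →ₗ[ℂ] ℂ)
    (hlam : ∀ b ∈ Bx k X, lam b = 0) :
    ∃ φ : ∀ i, C0 (K.e i), ∀ f : A0 X (k + 1),
      lam f = ∑ i, ∫ z, (φ i).1 z * cf (f.1.1 (K.e i) z) := by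
  have hsc : ∀ i j h (hh : Test h), sc K i ⟨dbar j h, dbar_test j hh⟩ =
      (K.r i : ℂ) • dC0 (K.e i) j (sc K i ⟨h, hh⟩) := by
    intro i j h hh
    apply Subtype.ext
    funext z
    show dbar j h (ag K i z) = (K.r i : ℂ) * dbar j (fun z => h (ag K i z)) z
    rw [dbar_ag K i j hh.1, ← mul_assoc, mul_inv_cancel₀, one_mul]
    exact_mod_cast (K.r_pos i).ne'
  have hsc2 : ∀ i (f : A0 X (k + 1)) (hT : Test (cl K i f)), sc K i ⟨cl K i f, hT⟩ = cC K i f := by
    intro i f hT
    apply Subtype.ext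
    funext z
    show cc K i f (af K i (ag K i z)) = cc K i f z
    rw [af_ag]
  have he : ∀ i j h (hh : Test h),
      (exA (K.e i) ∘ₗ sc K i) ⟨dbar j h, dbar_test j hh⟩ ∈ Bx k X := by
    intro i j h hh
    show exA (K.e i) (sc K i ⟨dbar j h, dbar_test j hh⟩) ∈ Bx k X
    rw [hsc i j h hh, map_smul]
    exact Submodule.smul_mem _ _ (exA_dbar _ _ _)
  have hdec : ∀ f : A0 X (k + 1), ∀ (hT : ∀ i, Test (cl K i f)),
      f - ∑ i, (exA (K.e i) ∘ₗ sc K i) ⟨cl K i f, hT i⟩ ∈ Bx k X := by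
    intro f hT
    have h2 : ∀ i, (exA (K.e i) ∘ₗ sc K i) ⟨cl K i f, hT i⟩ = exA (K.e i) (cC K i f) := by
      intro i
      show exA (K.e i) (sc K i ⟨cl K i f, hT i⟩) = _
      rw [hsc2]
    have h1 : f - ∑ i, (exA (K.e i) ∘ₗ sc K i) ⟨cl K i f, hT i⟩ = 0 := by
      rw [Finset.sum_congr rfl fun i _ => h2 i, ← sum_exA K f]
      exact sub_self f
    rw [h1]
    exact zero_mem _
  obtain ⟨ψ, hψ, hψ2⟩ := abstract_top (A := A0 X (k + 1)) (Bx k X) (cl K)
    (fun i => exA (K.e i) ∘ₗ sc K i) (fun i f => cc_af_good K i f) he hdec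
    (fun i j => cl_bound K i j) lam hlam
  let κ : Fin K.m → ℂ := fun i =>
    ((|((K.r i) ^ (Module.finrank ℝ (Cn (k + 1))))⁻¹| : ℝ) : ℂ)
  have hX : ∀ i, (K.e i).1.target.indicator
      (fun z => ((K.chi i).fn ((K.e i).1.symm z) : ℂ)) ∈ C0 (K.e i) := by
    intro i
    refine mkC0 (K.e i) (chi_contDiffOn K i _) (isCompact_closedBall (K.a i) (K.r i)) ?_
      (fun z hz hzb => ?_)
    · have := sub_target K i (R := 1) (by norm_num)
      rwa [one_mul] at this
    · by_contra h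
      apply hzb
      have h2 : (K.chi i).fn ((K.e i).1.symm z) ≠ 0 := by
        intro hc
        apply h
        rw [hc]
        simp
      have h3 := (K.supp i _ h2).2
      rwa [(K.e i).1.right_inv hz] at h3
  have hφ : ∀ i, (fun z => (κ i * ψ i (ag K i z)) * (K.e i).1.target.indicator
      (fun z => ((K.chi i).fn ((K.e i).1.symm z) : ℂ)) z) ∈ C0 (K.e i) := fun i =>
    mulC0 (K.e i) (F := fun z => κ i * ψ i (ag K i z))
      (contDiff_const.mul ((hψ i).comp (ag_contDiff K i))).contDiffOn ⟨_, hX i⟩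
  refine ⟨fun i => ⟨_, hφ i⟩, fun f => ?_⟩
  rw [hψ2 f]
  apply Finset.sum_congr rfl
  intro i _
  have h1 : ∀ z, (κ i * ψ i (ag K i z)) * (K.e i).1.target.indicator
      (fun z => ((K.chi i).fn ((K.e i).1.symm z) : ℂ)) z * cf (f.1.1 (K.e i) z) =
      κ i * (ψ i (ag K i z) * cc K i f z) := by
    intro z
    by_cases hz : z ∈ (K.e i).1.target
    · rw [indicator_of_mem hz]
      unfold cc
      ring
    · rw [indicator_of_notMem hz]
      unfold cc
      rw [cf_off _ _ hz]
      ring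
  have h2 : ∫ y, ψ i y * cl K i f y = κ i * ∫ z, ψ i (ag K i z) * cc K i f z := by
    have e1 : (fun y => ψ i y * cl K i f y) =
        fun y => (fun x => (fun z => ψ i (ag K i z) * cc K i f z) (K.a i + x)) (K.r i • y) := by
      funext y
      show ψ i y * cc K i f (af K i y) = ψ i (ag K i (af K i y)) * cc K i f (af K i y)
      rw [ag_af]
    rw [e1, Measure.integral_comp_smul volume
      (fun x => (fun z => ψ i (ag K i z) * cc K i f z) (K.a i + x)) (K.r i),
      integral_add_left_eq_self (fun z => ψ i (ag K i z) * cc K i f z) (K.a i),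
      Complex.real_smul]
  rw [h2, ← integral_const_mul]
  exact integral_congr_ae (Filter.Eventually.of_forall fun z => (h1 z).symm)

theorem cf_sum {ι : Type*} (s : Finset ι) (f : ι → A0 X (k + 1)) (e : atlas (Cn (k + 1)) X)
    (z : Cn (k + 1)) : cf ((∑ i ∈ s, f i : A0 X (k + 1)).1.1 e z) = ∑ i ∈ s, cf ((f i).1.1 e z) := by
  have h1 : (∑ i ∈ s, f i : A0 X (k + 1)).1 = ∑ i ∈ s, (f i).1 := Submodule.coe_sum _ _ _
  rw [h1, coe_sum_apply]
  unfold cf
  rw [ContinuousAlternatingMap.sum_apply]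

/-- the form dual to the functional -/
noncomputable def dualForm (K : Cov (k + 1) X) (φ : ∀ i, C0 (K.e i)) : A0 X (k + 1) :=
  ∑ i, exA (K.e i) (cj (K.e i) (φ i))

theorem conj_cf_smooth (f : A0 X (k + 1)) (e : atlas (Cn (k + 1)) X) :
    ContDiffOn ℝ ∞ (fun z => conj (cf (f.1.1 e z))) e.1.target :=
  Complex.conjCLE.contDiff.comp_contDiffOn (cf_contDiffOn f.1 e)

theorem key (K : Cov (k + 1) X) (lam : A0 X (k + 1) →ₗ[ℂ] ℂ) (φ : ∀ i, C0 (K.e i))
    (hφ : ∀ f : A0 X (k + 1), lam f = ∑ i, ∫ z, (φ i).1 z * cf (f.1.1 (K.e i) z))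
    (e : atlas (Cn (k + 1)) X) (u : C0 e) :
    lam (exA e u) = ∫ z, conj (cf ((dualForm K φ).1.1 e z)) * u.1 z := by
  rw [hφ]
  have h1 : ∀ i, ∫ z, (φ i).1 z * cf ((exA e u).1.1 (K.e i) z) =
      ∫ z, conj (cf ((exA (K.e i) (cj (K.e i) (φ i))).1.1 e z)) * u.1 z := fun i =>
    pairing (K.e i) e (φ i) u
  rw [Finset.sum_congr rfl fun i _ => h1 i, ← integral_finsetSum]
  · apply integral_congr_ae
    refine Filter.Eventually.of_forall fun z => ?_
    show ∑ i, conj (cf ((exA (K.e i) (cj (K.e i) (φ i))).1.1 e z)) * u.1 z =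
      conj (cf ((∑ i, exA (K.e i) (cj (K.e i) (φ i)) : A0 X (k + 1)).1.1 e z)) * u.1 z
    rw [cf_sum, map_sum, Finset.sum_mul]
  · intro i _
    exact C0_integrable (⟨_, mulC0 e (conj_cf_smooth _ e) u⟩ : C0 e)

/-- a functional vanishing on `dbar`-exact forms and on closed forms is zero -/
theorem lam_zero [CompactSpace X] (lam : A0 X (k + 1) →ₗ[ℂ] ℂ) (hlam : ∀ b ∈ Bx k X, lam b = 0)
    (hcl : ∀ f : A0 X (k + 1), extD (k + 1) X (k + 1) f.1 = 0 → lam f = 0) : lam = 0 := by
  obtain ⟨K⟩ := exists_cov (k + 1) X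
  obtain ⟨φ, hφ⟩ := functional K lam hlam
  set h := dualForm K φ with hh
  have hkey := key K lam φ hφ
  -- closedness
  have hdb : ∀ (e : atlas (Cn (k + 1)) X) (j : Fin (k + 1)), ∀ z ∈ e.1.target,
      dbar j (fun z => conj (cf (h.1.1 e z))) z = 0 := by
    intro e j z hz
    have hs := conj_cf_smooth h e
    have hd := dbar_contDiffOn j e.1.open_target hs
    refine fund e hd (fun u => ?_) hz
    rw [by_parts e j hs u hd]
    have h1 := hkey e (dC0 e j u)
    rw [hlam _ (exA_dbar e j u)] at h1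
    have h2 : ∫ z, conj (cf (h.1.1 e z)) * dbar j u.1 z = 0 := h1.symm
    rw [h2, neg_zero]
  have hclosed : extD (k + 1) X (k + 1) h.1 = 0 := by
    apply form_ext
    intro e y hy
    rw [extD_apply _ _ hy]
    have h1 : h.1.1 e = fun z => cf (h.1.1 e z) • Dbar (k + 1) := funext fun z => A0_eq h e z
    rw [h1]
    exact extDeriv_Dbar (((cf_contDiffOn h.1 e).contDiffAt
      (e.1.open_target.mem_nhds hy)).differentiableAt (by simp)) fun j => hdb e j y hy
  have hh0 : lam h = 0 := hcl h hclosed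
  -- formula
  have hform : ∀ f : A0 X (k + 1), lam f =
      ∑ i, ∫ z, conj (cf (h.1.1 (K.e i) z)) * cc K i f z := by
    intro f
    conv_lhs => rw [sum_exA K f]
    rw [map_sum]
    exact Finset.sum_congr rfl fun i _ => hkey (K.e i) (cC K i f)
  have hsq : ∀ i z, conj (cf (h.1.1 (K.e i) z)) * cc K i h z =
      (((K.chi i).fn ((K.e i).1.symm z) * Complex.normSq (cf (h.1.1 (K.e i) z)) : ℝ) : ℂ) := by
    intro i z
    unfold cc
    rw [mul_left_comm, ← Complex.normSq_eq_conj_mul_self]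
    push_cast
    ring
  have hnn : ∀ i z, 0 ≤ (conj (cf (h.1.1 (K.e i) z)) * cc K i h z).re := by
    intro i z
    rw [hsq, Complex.ofReal_re]
    exact mul_nonneg (K.nonneg _ _) (Complex.normSq_nonneg _)
  have hint : ∀ i, (∫ z, conj (cf (h.1.1 (K.e i) z)) * cc K i h z).re = 0 := by
    have h1 : ∑ i, (∫ z, conj (cf (h.1.1 (K.e i) z)) * cc K i h z).re = 0 := by
      rw [← Complex.re_sum, ← hform h, hh0]
      rfl
    have h2 : ∀ i, 0 ≤ (∫ z, conj (cf (h.1.1 (K.e i) z)) * cc K i h z).re := by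
      intro i
      have e1 : ∫ z, (conj (cf (h.1.1 (K.e i) z)) * cc K i h z).re =
          (∫ z, conj (cf (h.1.1 (K.e i) z)) * cc K i h z).re :=
        Complex.reCLM.integral_comp_comm
          (C0_integrable (⟨_, mulC0 (K.e i) (conj_cf_smooth h (K.e i)) (cC K i h)⟩ : C0 (K.e i)))
      rw [← e1]
      exact integral_nonneg (hnn i)
    intro i
    exact (Finset.sum_eq_zero_iff_of_nonneg fun i _ => h2 i).mp h1 i (Finset.mem_univ i)
  have hpt : ∀ i z, (K.chi i).fn ((K.e i).1.symm z) * Complex.normSq (cf (h.1.1 (K.e i) z)) = 0 := by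
    intro i z
    have h1 := sq_zero (K.e i) (conj_cf_smooth h (K.e i)) (cC K i h) (hnn i) (hint i) z
    have h2 : (conj (cf (h.1.1 (K.e i) z)) * cc K i h z).re = 0 := h1
    rwa [hsq, Complex.ofReal_re] at h2
  apply LinearMap.ext
  intro f
  rw [hform f, LinearMap.zero_apply]
  apply Finset.sum_eq_zero
  intro i _
  have h1 : ∀ z, conj (cf (h.1.1 (K.e i) z)) * cc K i f z = 0 := by
    intro z
    rcases mul_eq_zero.mp (hpt i z) with h2 | h2
    · unfold cc
      rw [h2]
      simp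
    · rw [Complex.normSq_eq_zero.mp h2, map_zero, zero_mul]
  simp_rw [h1]
  exact integral_zero _ _

end Main

/-- MODULE SERRE (top-degree Serre duality): every smooth `(0,n)`-form on a compact complex
manifold of dimension `n` is the sum of a closed `(0,n)`-form and of the `(0,n)`-part of `dg`
for a smooth `(0,n-1)`-form `g`. -/
theorem serre_top (k : ℕ) (X : Type*) [TopologicalSpace X] [ChartedSpace (Cn (k + 1)) X]
    [IsManifold 𝓘(ℂ, Cn (k + 1)) ω X] [CompactSpace X] [T2Space X]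
    (f : Form (k + 1) X (k + 1)) (hf : f ∈ Apq (k + 1) X 0 (k + 1) (k + 1)) :
    ∃ h ∈ Apq (k + 1) X 0 (k + 1) (k + 1), extD (k + 1) X (k + 1) h = 0 ∧
      ∃ g ∈ Apq (k + 1) X 0 k k, f - h - extD (k + 1) X k g ∈ Apq (k + 1) X 1 k (k + 1) := by
  let H : Submodule ℂ (A0 X (k + 1)) :=
    LinearMap.ker (extD (k + 1) X (k + 1) ∘ₗ (A0 X (k + 1)).subtype)
  have htop : Bx k X ⊔ H = ⊤ := by
    by_contra hne
    obtain ⟨lam, hl0, hl⟩ := Submodule.exists_le_ker_of_lt_top _ (lt_top_iff_ne_top.mpr hne)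
    apply hl0
    apply lam_zero lam
    · intro b hb
      exact hl (Submodule.mem_sup_left hb)
    · intro f hf
      exact hl (Submodule.mem_sup_right (by exact hf))
  have hmem : (⟨f, hf⟩ : A0 X (k + 1)) ∈ Bx k X ⊔ H := by
    rw [htop]
    exact Submodule.mem_top
  obtain ⟨b, ⟨g, hg, c, hc, hb⟩, h, hh, hbh⟩ := Submodule.mem_sup.mp hmem
  have e1 : f = b.1 + h.1 := (congrArg Subtype.val hbh).symm
  refine ⟨h.1, h.2, hh, g, hg, ?_⟩
  have e2 : f - h.1 - extD (k + 1) X k g = c := by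
    rw [e1, hb]
    abel
  rw [e2]
  exact hc

end Pool.Agent.H71.Fro
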