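import Pool.Agent.H71.Fro.Serre
import Pool.Agent.H73.Fro.Upper

set_option autoImplicit false

/-!
# The Froelicher spectral sequence of a compact complex `n`-manifold degenerates at page `n`
-/

namespace Pool.Agent.H71.Fro

open Set Pool.Agent.H73.Fro
open scoped Manifold ContDiff ComplexConjugate Topology

/-- MODULE UPPER -/
theorem upper (n : ℕ) (hn : 1 ≤ n) (X : Type*) [TopologicalSpace X] [ChartedSpace (Cn n) X]
    [IsManifold 𝓘(ℂ, Cn n) ω X] [CompactSpace X] [T2Space X] (r p q : ℤ) (hr : (n : ℤ) ≤ r) :
    (frolicher n X).d r p q = 0 := by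
  cases n with
  | zero => omega
  | succ k =>
    exact upper_of (k + 1) hn X (fun x => hS_of_serre_top k X (fun f hf => serre_top k X f hf) x)
      r p q hr

end Pool.Agent.H71.Fro
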